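import Mathlib

set_option autoImplicit false

/-! # The number of solutions of `w z = t` near a point -/

namespace Pool.Agent.H36.NJ

open Complex Filter
open scoped Topology

/-- the normal form `w z - w z₀ = (z - z₀)^m g z` -/
private lemma Cnt_factor {w : ℂ → ℂ} {z₀ : ℂ} (hw : AnalyticAt ℂ w z₀) {m : ℕ}
    (hm : analyticOrderAt (fun z => w z - w z₀) z₀ = m) :
    1 ≤ m ∧ ∃ g : ℂ → ℂ, AnalyticAt ℂ g z₀ ∧ g z₀ ≠ 0 ∧
      ∀ᶠ z in 𝓝 z₀, w z - w z₀ = (z - z₀) ^ m * g z := by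
  have hf : AnalyticAt ℂ (fun z => w z - w z₀) z₀ := hw.sub analyticAt_const
  obtain ⟨g, hg, hg0, hgf⟩ := (hf.analyticOrderAt_eq_natCast).1 hm
  refine ⟨?_, g, hg, hg0, hgf.mono fun z hz => by simpa [smul_eq_mul] using hz⟩
  by_contra hcon
  have h0 : m = 0 := by omega
  subst h0
  have h1 := hgf.self_of_nhds
  simp only [sub_self, pow_zero, one_smul] at h1
  exact hg0 h1.symm

/-- if `w - w z₀` has order `m` at `z₀`, then `w z = t` has at most `m` solutions in a
neighbourhood of `z₀`, for every `t` -/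
theorem card_le_order (w : ℂ → ℂ) (z₀ : ℂ) (hw : AnalyticAt ℂ w z₀) (m : ℕ)
    (hm : analyticOrderAt (fun z => w z - w z₀) z₀ = m) :
    ∃ U ∈ 𝓝 z₀, ∀ (t : ℂ) (s : Finset ℂ), (∀ z ∈ s, z ∈ U ∧ w z = t) → s.card ≤ m := by
  obtain ⟨hm1, g, hg, hg0, hgf⟩ := Cnt_factor hw hm
  have hmC : (m : ℂ) ≠ 0 := Nat.cast_ne_zero.2 (by omega)
  obtain ⟨c, hc⟩ := IsAlgClosed.exists_pow_nat_eq (g z₀) (show 0 < m by omega)
  have hc0 : c ≠ 0 := by
    rintro rfl
    rw [zero_pow (by omega)] at hc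
    exact hg0 hc.symm
  obtain ⟨G, hG⟩ : ∃ G : ℂ → ℂ, G = fun z =>
      (z - z₀) * (c * exp (log (g z / g z₀) / m)) := ⟨_, rfl⟩
  have hq : AnalyticAt ℂ (fun z => g z / g z₀) z₀ := hg.div_const
  have hslit : g z₀ / g z₀ ∈ slitPlane := by
    rw [div_self hg0]; exact one_mem_slitPlane
  have hlog : AnalyticAt ℂ (fun z => log (g z / g z₀)) z₀ := hq.clog hslit
  have hE : AnalyticAt ℂ (fun z => c * exp (log (g z / g z₀) / m)) z₀ :=
    analyticAt_const.mul (hlog.div_const).cexp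
  have hGa : AnalyticAt ℂ G z₀ := by
    rw [hG]
    exact (analyticAt_id.sub analyticAt_const).mul hE
  have hGd : HasDerivAt G c z₀ := by
    have h1 : HasDerivAt (fun z : ℂ => z - z₀) 1 z₀ := (hasDerivAt_id z₀).sub_const z₀
    have h2 := h1.mul hE.differentiableAt.hasDerivAt
    have h3 : (1 : ℂ) * (c * exp (log (g z₀ / g z₀) / m)) + (z₀ - z₀) *
        deriv (fun z => c * exp (log (g z / g z₀) / m)) z₀ = c := by
      rw [div_self hg0, log_one, zero_div, exp_zero, sub_self]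
      ring
    rw [h3] at h2
    rw [hG]
    exact h2
  have hGs : HasStrictDerivAt G c z₀ := by
    have h1 := hGa.hasStrictDerivAt
    rwa [hGd.deriv] at h1
  have hinv := (hGs.hasStrictFDerivAt_equiv hc0).eventually_left_inverse
  have hpow : ∀ᶠ z in 𝓝 z₀, w z - w z₀ = G z ^ m := by
    have hne : ∀ᶠ z in 𝓝 z₀, g z ≠ 0 := hg.continuousAt.eventually_ne hg0
    filter_upwards [hgf, hne] with z h1 h2
    rw [h1, hG]
    simp only
    rw [mul_pow, mul_pow, hc, ← exp_nat_mul, mul_div_cancel₀ _ hmC,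
      exp_log (div_ne_zero h2 hg0), mul_div_cancel₀ _ hg0]
  refine ⟨_, hpow.and hinv, fun t s hs => ?_⟩
  classical
  have hinj : Set.InjOn G s := by
    intro a ha b hb hab
    have h1 := (hs a ha).1.2
    have h2 := (hs b hb).1.2
    rw [← h1, ← h2, hab]
  calc s.card = (s.image G).card := (Finset.card_image_of_injOn hinj).symm
    _ ≤ (Polynomial.nthRoots m (t - w z₀)).toFinset.card := by
        apply Finset.card_le_card
        intro y hy
        obtain ⟨z, hz, rfl⟩ := Finset.mem_image.1 hy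
        rw [Multiset.mem_toFinset, Polynomial.mem_nthRoots (by omega)]
        rw [← (hs z hz).1.1, (hs z hz).2]
    _ ≤ Multiset.card (Polynomial.nthRoots m (t - w z₀)) := Multiset.toFinset_card_le _
    _ ≤ m := Polynomial.card_nthRoots _ _

/-- if `w` is not constant near `z₀` then `(w - w z₀) / w' → 0` -/
theorem quot_deriv_tendsto (w : ℂ → ℂ) (z₀ : ℂ) (hw : AnalyticAt ℂ w z₀)
    (hm : analyticOrderAt (fun z => w z - w z₀) z₀ ≠ ⊤) :
    Tendsto (fun z => (w z - w z₀) / deriv w z) (𝓝[≠] z₀) (𝓝 0) := by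
  obtain ⟨m, hm'⟩ := ENat.ne_top_iff_exists.1 hm
  obtain ⟨hm1, g, hg, hg0, hgf⟩ := Cnt_factor hw hm'.symm
  have hmC : (m : ℂ) ≠ 0 := Nat.cast_ne_zero.2 (by omega)
  have hder : ∀ᶠ z in 𝓝 z₀, deriv w z = m * (z - z₀) ^ (m - 1) * g z
      + (z - z₀) ^ m * deriv g z := by
    have h1 : (fun z => w z) =ᶠ[𝓝 z₀] fun z => w z₀ + (z - z₀) ^ m * g z :=
      hgf.mono fun z hz => by
        change w z = w z₀ + (z - z₀) ^ m * g z
        rw [← hz]; ring
    filter_upwards [h1.deriv, hg.eventually_analyticAt] with z h2 h3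
    rw [show deriv w z = deriv (fun z => w z) z from rfl, h2]
    have h4 : HasDerivAt (fun z : ℂ => z - z₀) 1 z := (hasDerivAt_id z).sub_const z₀
    have h5 := ((h4.fun_pow m).mul h3.differentiableAt.hasDerivAt).const_add (w z₀)
    rw [mul_one] at h5
    exact h5.deriv
  have hev : (fun z => (z - z₀) * g z / (m * g z + (z - z₀) * deriv g z))
      =ᶠ[𝓝[≠] z₀] fun z => (w z - w z₀) / deriv w z := by
    filter_upwards [nhdsWithin_le_nhds hgf, nhdsWithin_le_nhds hder, self_mem_nhdsWithin]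
      with z h1 h2 h3
    have h4 : z - z₀ ≠ 0 := sub_ne_zero.2 h3
    rw [h1, h2]
    have h5 : (z - z₀) ^ m = (z - z₀) ^ (m - 1) * (z - z₀) := by
      rw [← pow_succ, Nat.sub_add_cancel hm1]
    rw [h5]
    have h6 : (m : ℂ) * (z - z₀) ^ (m - 1) * g z + (z - z₀) ^ (m - 1) * (z - z₀) * deriv g z
        = (z - z₀) ^ (m - 1) * (m * g z + (z - z₀) * deriv g z) := by ring
    rw [h6, mul_assoc ((z - z₀) ^ (m - 1)) (z - z₀) (g z),
      mul_div_mul_left _ _ (pow_ne_zero _ h4)]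
  refine Tendsto.congr' hev ?_
  have hc1 : ContinuousAt (fun z => (z - z₀) * g z / (m * g z + (z - z₀) * deriv g z)) z₀ := by
    have h1 : ContinuousAt (fun z : ℂ => z - z₀) z₀ := (continuousAt_id).sub continuousAt_const
    have h2 : ContinuousAt (deriv g) z₀ := hg.deriv.continuousAt
    refine (h1.mul hg.continuousAt).div ((continuousAt_const.mul hg.continuousAt).add
      (h1.mul h2)) ?_
    simp only [sub_self, zero_mul, add_zero]
    exact mul_ne_zero hmC hg0
  have h3 := hc1.tendsto.mono_left (nhdsWithin_le_nhds (s := {z₀}ᶜ))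
  simpa using h3

end Pool.Agent.H36.NJ
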