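import Pool.Agent.H36.G00.Defs

set_option autoImplicit false

/-! # Curves in `A_τ` with the numerical property of the Abel-Jacobi curve -/

namespace Pool.Agent.H36.G00

open Complex Matrix Filter
open scoped Topology Manifold ContDiff

/-- `v` is a holomorphic local lift to `ℂ^g`, in the chart at the point `x` of the Riemann surface
`X`, of the map `X → A_τ = ℂ^g / Λ_τ` given by `u` modulo `Λ_τ`. -/
def IsLift {g : ℕ} (τ : Matrix (Fin g) (Fin g) ℂ) {X : Type} [TopologicalSpace X]
    [ChartedSpace ℂ X] (u : X → Fin g → ℂ) (x : X) (v : ℂ → Fin g → ℂ) : Prop :=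
  AnalyticAt ℂ v (chartAt ℂ x x) ∧ ∀ᶠ y in 𝓝 x, u y - v (chartAt ℂ x y) ∈ lattice τ

/-- There are a compact connected Riemann surface `X` and a holomorphic map `u` from `X` to
`A_τ`, such that the pull-backs of the `g` coordinate differentials are linearly independent, and
such that the pull-back to `X` of a section of `2Θ` which does not vanish identically on `X` has
at most `2g` zeros on `X`, counted with multiplicity. -/
def JacobianCurve {g : ℕ} (τ : Matrix (Fin g) (Fin g) ℂ) : Prop :=
  ∃ (X : Type) (_ : TopologicalSpace X) (_ : T2Space X) (_ : CompactSpace X)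
    (_ : ConnectedSpace X) (_ : ChartedSpace ℂ X) (_ : IsManifold 𝓘(ℂ) ω X) (u : X → Fin g → ℂ),
    (∀ x, ∃ v, IsLift τ u x v) ∧
    (∀ c : Fin g → ℂ, c ≠ 0 → ∃ x v, IsLift τ u x v ∧
      deriv (fun z => ∑ i, c i * v z i) (chartAt ℂ x x) ≠ 0) ∧
    ∀ f, IsSection τ f → (∃ x, f (u x) ≠ 0) →
      ∀ (s : Finset X) (v : X → ℂ → Fin g → ℂ), (∀ x ∈ s, IsLift τ u x (v x)) →
        ∑ x ∈ s, analyticOrderAt (fun z => f (v x z)) (chartAt ℂ x x) ≤ 2 * g

end Pool.Agent.H36.G00
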