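import Mathlib

set_option autoImplicit false

/-! # Liouville's theorem for doubly periodic functions, no simple poles -/

namespace Pool.Agent.H36.NJ

open Complex Filter
open scoped Topology

/-- the value at a removable singularity -/
private noncomputable def ell_h (F : ℂ → ℂ) (z : ℂ) : ℂ := limUnder (𝓝[≠] z) F

private lemma ell_h_eq {F : ℂ → ℂ} {z : ℂ} (h : ContinuousAt F z) : ell_h F z = F z :=
  (h.tendsto.mono_left nhdsWithin_le_nhds).limUnder_eq

private lemma ell_littleO {g : ℂ → ℂ} {z : ℂ}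
    (hg : Tendsto (fun t => (t - z) * g t) (𝓝[≠] z) (𝓝 0)) :
    g =o[𝓝[≠] z] (fun w => (w - z)⁻¹) := by
  rw [Asymptotics.isLittleO_iff_tendsto']
  · refine hg.congr (fun w => ?_)
    rw [div_inv_eq_mul, mul_comm]
  · filter_upwards [self_mem_nhdsWithin] with w hw h0
    exact absurd (sub_eq_zero.mp (inv_eq_zero.mp h0)) hw

private lemma ell_const (z c : ℂ) : Tendsto (fun t => (t - z) * c) (𝓝[≠] z) (𝓝 0) := by
  have h : Tendsto (fun t : ℂ => (t - z) * c) (𝓝 z) (𝓝 ((z - z) * c)) := by
    apply ContinuousAt.tendsto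
    fun_prop
  rw [sub_self, zero_mul] at h
  exact h.mono_left nhdsWithin_le_nhds

private lemma ell_rem {F : ℂ → ℂ} {z : ℂ} (hd : ∀ᶠ t in 𝓝[≠] z, DifferentiableAt ℂ F t)
    (hb : Tendsto (fun t => (t - z) * F t) (𝓝[≠] z) (𝓝 0)) :
    Tendsto F (𝓝[≠] z) (𝓝 (ell_h F z)) ∧ DifferentiableAt ℂ (ell_h F) z := by
  have ho : (fun w => F w - F z) =o[𝓝[≠] z] (fun w => (w - z)⁻¹) :=
    (ell_littleO hb).sub (ell_littleO (ell_const z (F z)))
  refine ⟨Complex.tendsto_limUnder_of_differentiable_on_punctured_nhds_of_isLittleO hd ho, ?_⟩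
  rw [eventually_nhdsWithin_iff] at hd
  have hD : DifferentiableOn ℂ F ({t | t ≠ z → DifferentiableAt ℂ F t} \ {z}) := fun t ht =>
    (ht.1 ht.2).differentiableWithinAt
  have H := (Complex.differentiableOn_update_limUnder_of_isLittleO hd hD ho).differentiableAt hd
  refine H.congr_of_eventuallyEq ?_
  filter_upwards [hd] with t ht
  by_cases h : t = z
  · subst h
    rw [Function.update_self]
    rfl
  · rw [Function.update_of_ne h]
    exact ell_h_eq (ht h).continuousAt

private lemma ell_tr (z l : ℂ) : Tendsto (fun t => t - l) (𝓝[≠] (z + l)) (𝓝[≠] z) := by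
  refine tendsto_nhdsWithin_of_tendsto_nhds_of_eventually_within _ ?_ ?_
  · have h : Tendsto (fun t : ℂ => t - l) (𝓝 (z + l)) (𝓝 (z + l - l)) := by
      apply ContinuousAt.tendsto
      fun_prop
    rw [add_sub_cancel_right] at h
    exact h.mono_left nhdsWithin_le_nhds
  · filter_upwards [self_mem_nhdsWithin] with t ht h0
    apply ht
    have h1 : t - l = z := h0
    rw [← h1]
    simp

private lemma ell_tr' (z l : ℂ) : Tendsto (fun t => t + l) (𝓝[≠] z) (𝓝[≠] (z + l)) := by
  have h := ell_tr (z + l) (-l)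
  simpa using h

private lemma ell_da {f : ℂ → ℂ} {z c : ℂ} (h : DifferentiableAt ℂ f (z + c)) :
    DifferentiableAt ℂ (fun t => f (t + c)) z :=
  DifferentiableAt.comp (g := f) (f := fun t : ℂ => t + c) z h (by fun_prop)

private lemma ell_neg (z : ℂ) : Tendsto (fun t : ℂ => -t) (𝓝[≠] z) (𝓝[≠] (-z)) := by
  refine tendsto_nhdsWithin_of_tendsto_nhds_of_eventually_within _ ?_ ?_
  · exact (continuous_neg.tendsto z).mono_left nhdsWithin_le_nhds
  · filter_upwards [self_mem_nhdsWithin] with t ht h0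
    apply ht
    have h1 : -t = -z := h0
    exact neg_injective h1

private lemma ell_h_per {F : ℂ → ℂ} (z l : ℂ) (hper : ∀ w, F (w + l) = F w) :
    ell_h F (z + l) = ell_h F z := by
  have e : map (fun t => t + l) (𝓝[≠] z) = 𝓝[≠] (z + l) := by
    apply le_antisymm (ell_tr' z l)
    have h := map_mono (m := fun t => t + l) (ell_tr z l)
    rw [map_map] at h
    have h2 : ((fun t => t + l) ∘ fun t : ℂ => t - l) = id := by
      funext t
      simp
    rw [h2, map_id] at h
    exact h
  have h3 : map F (𝓝[≠] (z + l)) = map F (𝓝[≠] z) := by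
    rw [← e, map_map]
    have h4 : (F ∘ fun t => t + l) = F := by
      funext t
      exact hper t
    rw [h4]
  unfold ell_h limUnder
  rw [h3]

private lemma ell_liouville0 (L : PeriodPair) (F : ℂ → ℂ)
    (hd : ∀ z, ∀ᶠ t in 𝓝[≠] z, DifferentiableAt ℂ F t)
    (hb : ∀ z, Tendsto (fun t => (t - z) * F t) (𝓝[≠] z) (𝓝 0))
    (hper : ∀ z, ∀ l ∈ L.lattice, F (z + l) = F z) :
    ∃ C, ∀ z, ContinuousAt F z → F z = C := by
  have hD : Differentiable ℂ (ell_h F) := fun z => (ell_rem (hd z) (hb z)).2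
  have hP : ∀ z, ∀ l ∈ L.lattice, ell_h F (z + l) = ell_h F z := fun z l hl =>
    ell_h_per z l (fun w => hper w l hl)
  have hB : Bornology.IsBounded (Set.range (ell_h F)) := by
    have hb1 : Bornology.IsBounded (ZSpan.fundamentalDomain L.basis) :=
      ZSpan.fundamentalDomain_isBounded _
    have him := (hb1.isCompact_closure.image hD.continuous).isBounded
    refine him.subset ?_
    rintro _ ⟨z, rfl⟩
    refine ⟨ZSpan.fract L.basis z, subset_closure (ZSpan.fract_mem_fundamentalDomain _ _), ?_⟩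
    rw [ZSpan.fract_apply]
    have hl : ((ZSpan.floor L.basis z : _) : ℂ) ∈ L.lattice := by
      rw [L.lattice_eq_span_range_basis]
      exact (ZSpan.floor L.basis z).2
    have h := hP (z - ZSpan.floor L.basis z) _ hl
    rw [sub_add_cancel] at h
    exact h.symm
  refine ⟨ell_h F 0, fun z hz => ?_⟩
  rw [← ell_h_eq hz]
  exact hD.apply_eq_apply_of_bounded hB z 0

/-- a doubly periodic function, holomorphic off a discrete set of removable singularities, is
constant -/
theorem liouville (L : PeriodPair) (F : ℂ → ℂ) (B : Set ℂ) (hB : ∀ t₀, ∀ᶠ t in 𝓝[≠] t₀, t ∉ B)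
    (hper : ∀ z, ∀ l ∈ L.lattice, F (z + l) = F z) (hd : ∀ z ∉ B, DifferentiableAt ℂ F z)
    (hb : ∀ z ∈ B, Tendsto (fun t => (t - z) * F t) (𝓝[≠] z) (𝓝 0)) :
    ∃ C, ∀ z ∉ B, F z = C := by
  obtain ⟨C, hC⟩ := ell_liouville0 L F (fun z => (hB z).mono fun t ht => hd t ht)
    (fun z => by
      by_cases hz : z ∈ B
      · exact hb z hz
      · have h1 : Tendsto (fun t => (t - z) * F t) (𝓝 z) (𝓝 ((z - z) * F z)) := by
          apply ContinuousAt.tendsto
          exact (continuousAt_id.sub continuousAt_const).mul (hd z hz).continuousAt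
        rw [sub_self, zero_mul] at h1
        exact h1.mono_left nhdsWithin_le_nhds) hper
  exact ⟨C, fun z hz => hC z (hd z hz).continuousAt⟩

private lemma ell_disc (L : PeriodPair) (z : ℂ) : ∀ᶠ t in 𝓝[≠] z, t ∉ L.lattice := by
  rw [eventually_nhdsWithin_iff]
  filter_upwards [L.compl_lattice_sdiff_singleton_mem_nhds z] with t ht h0 h1
  exact ht ⟨h1, h0⟩

/-- the core: a doubly periodic function with simple poles at the lattice points only has no
pole -/
private lemma ell_core (L : PeriodPair) (G : ℂ → ℂ) (a : ℂ)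
    (hG1 : ∀ z, z ∉ L.lattice → DifferentiableAt ℂ G z)
    (hG2 : ∀ z, ∀ l ∈ L.lattice, G (z + l) = G z)
    (hG3 : Tendsto (fun z => z * G z) (𝓝[≠] 0) (𝓝 a)) : a = 0 := by
  have hG3' : ∀ l ∈ L.lattice, Tendsto (fun z => (z - l) * G z) (𝓝[≠] l) (𝓝 a) := by
    intro l hl
    have h := hG3.comp (ell_tr 0 l)
    rw [zero_add] at h
    refine h.congr (fun t => ?_)
    simp only [Function.comp]
    have h2 := hG2 (t - l) l hl
    rw [sub_add_cancel] at h2
    rw [h2]
  obtain ⟨C, hC⟩ := liouville L (fun z => G z + G (-z)) L.lattice (ell_disc L)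
    (fun z l hl => by
      show G (z + l) + G (-(z + l)) = G z + G (-z)
      rw [hG2 z l hl, neg_add, hG2 (-z) (-l) (neg_mem hl)])
    (fun z hz => by
      have h1 : -z ∉ L.lattice := fun h => hz (by simpa using neg_mem h)
      exact (hG1 z hz).add ((hG1 (-z) h1).comp z (by fun_prop)))
    (fun z hz => by
      have h1 := hG3' z hz
      have h2 := (hG3' (-z) (neg_mem hz)).comp (ell_neg z)
      have h3 := h1.sub h2
      rw [sub_self] at h3
      refine h3.congr (fun t => ?_)
      simp only [Function.comp]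
      ring)
  set G1 : ℂ → ℂ := fun z => G z - C / 2 with hG1def
  have k1 : ∀ z, z ∉ L.lattice → DifferentiableAt ℂ G1 z := fun z hz =>
    (hG1 z hz).sub (differentiableAt_const _)
  have k2 : ∀ z, ∀ l ∈ L.lattice, G1 (z + l) = G1 z := fun z l hl => by
    simp only [hG1def]
    rw [hG2 z l hl]
  have k3 : ∀ l ∈ L.lattice, Tendsto (fun z => (z - l) * G1 z) (𝓝[≠] l) (𝓝 a) := by
    intro l hl
    have h := (hG3' l hl).sub (ell_const l (C / 2))
    rw [sub_zero] at h
    refine h.congr (fun t => ?_)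
    simp only [hG1def]
    ring
  have k4 : ∀ z, z ∉ L.lattice → z + z ∈ L.lattice → G1 z = 0 := by
    intro z hz hzz
    have h1 : G z + G (-z) = C := hC z hz
    have h2 : G (-z) = G z := by
      have h3 := hG2 (-z) (z + z) hzz
      rw [neg_add_cancel_left] at h3
      exact h3.symm
    simp only [hG1def]
    rw [h2] at h1
    rw [← h1]
    ring
  obtain ⟨h, hh1, hh2, k, hk1, hk2, hkh⟩ : ∃ h : ℂ, h ∉ L.lattice ∧ h + h ∈ L.lattice ∧ ∃ k : ℂ,
      k ∉ L.lattice ∧ k + k ∈ L.lattice ∧ k + h ∉ L.lattice := by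
    refine ⟨L.ω₁ / 2, L.ω₁_div_two_notMem_lattice, ?_, L.ω₂ / 2, L.ω₂_div_two_notMem_lattice,
      ?_, ?_⟩
    · rw [add_halves]
      exact L.ω₁_mem_lattice
    · rw [add_halves]
      exact L.ω₂_mem_lattice
    · have h3 := (L.mul_ω₁_add_mul_ω₂_mem_lattice (α := 1 / 2) (β := 1 / 2)).not.mpr (by norm_num)
      intro h4
      apply h3
      have e : ((1 / 2 : ℚ) : ℂ) * L.ω₁ + ((1 / 2 : ℚ) : ℂ) * L.ω₂ = L.ω₂ / 2 + L.ω₁ / 2 := by
        push_cast
        ring
      rw [e]
      exact h4
  have hdisc2 : ∀ t₀ : ℂ, ∀ᶠ t in 𝓝[≠] t₀, t ∉ {z : ℂ | z ∈ L.lattice ∨ z + h ∈ L.lattice} := by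
    intro t₀
    filter_upwards [ell_disc L t₀, (ell_tr' t₀ h).eventually (ell_disc L (t₀ + h))] with t h1 h2 h3
    exact h3.elim h1 h2
  obtain ⟨C', hC'⟩ := liouville L (fun z => G1 z * G1 (z + h))
    {z : ℂ | z ∈ L.lattice ∨ z + h ∈ L.lattice} hdisc2
    (fun z l hl => by
      show G1 (z + l) * G1 (z + l + h) = G1 z * G1 (z + h)
      rw [add_right_comm, k2 z l hl, k2 (z + h) l hl])
    (fun z hz => by
      have h1 : z ∉ L.lattice := fun h => hz (Or.inl h)
      have h2 : z + h ∉ L.lattice := fun h => hz (Or.inr h)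
      exact (k1 z h1).mul (ell_da (k1 (z + h) h2)))
    (fun z hz => by
      rcases hz with hz | hz
      · have hz' : z + h ∉ L.lattice := fun h4 => hh1 (by
          have h5 := L.lattice.sub_mem h4 hz
          rwa [add_sub_cancel_left] at h5)
        have hv : G1 (z + h) = 0 := k4 _ hz' (by
          have e : z + h + (z + h) = z + z + (h + h) := by ring
          rw [e]
          exact add_mem (add_mem hz hz) hh2)
        have hc : Tendsto (fun t => G1 (t + h)) (𝓝[≠] z) (𝓝 (G1 (z + h))) :=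
          (((k1 _ hz').continuousAt.tendsto).mono_left nhdsWithin_le_nhds).comp (ell_tr' z h)
        have h6 := (k3 z hz).mul hc
        rw [hv, mul_zero] at h6
        refine h6.congr (fun t => ?_)
        ring
      · have hz' : z ∉ L.lattice := fun h4 => hh1 (by
          have h5 := L.lattice.sub_mem hz h4
          rwa [add_sub_cancel_left] at h5)
        have hv : G1 z = 0 := k4 _ hz' (by
          have e : z + z = z + h + (z + h) - (h + h) := by ring
          rw [e]
          exact sub_mem (add_mem hz hz) hh2)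
        have hc : Tendsto G1 (𝓝[≠] z) (𝓝 (G1 z)) :=
          ((k1 _ hz').continuousAt.tendsto).mono_left nhdsWithin_le_nhds
        have h6 := hc.mul ((k3 (z + h) hz).comp (ell_tr' z h))
        rw [hv, zero_mul] at h6
        refine h6.congr (fun t => ?_)
        simp only [Function.comp]
        ring)
  have hT0 : ∀ z, z ∉ {z : ℂ | z ∈ L.lattice ∨ z + h ∈ L.lattice} → G1 z * G1 (z + h) = 0 := by
    intro z hz
    have h1 : G1 z * G1 (z + h) = C' := hC' z hz
    have h2 : G1 k * G1 (k + h) = C' := hC' k (fun h3 => h3.elim hk1 hkh)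
    rw [h1, ← h2, k4 k hk1 hk2, zero_mul]
  by_contra ha
  have h3 := k3 0 (zero_mem _)
  have hz1 : ∀ᶠ t in 𝓝[≠] (0 : ℂ), G1 (t + h) = 0 := by
    filter_upwards [h3.eventually_ne ha, hdisc2 0] with t h4 h5
    have h6 := hT0 t h5
    rcases mul_eq_zero.mp h6 with h7 | h7
    · rw [h7, mul_zero] at h4
      exact absurd rfl h4
    · exact h7
  have hz2 : ∀ᶠ s in 𝓝[≠] h, G1 s = 0 := by
    have h4 := (ell_tr 0 h).eventually hz1
    rw [zero_add] at h4
    filter_upwards [h4] with s hs
    rwa [sub_add_cancel] at hs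
  have hz3 : G1 =ᶠ[𝓝 h] 0 := by
    rw [eventually_nhdsWithin_iff] at hz2
    filter_upwards [hz2] with s hs
    by_cases hsh : s = h
    · rw [hsh]
      exact k4 h hh1 hh2
    · exact hs hsh
  have hcount : (L.lattice : Set ℂ).Countable := by
    rw [← Set.countable_coe_iff]
    exact L.latticeEquivProd.injective.countable
  have hconn : IsPreconnected ((L.lattice : Set ℂ)ᶜ) :=
    (hcount.isPathConnected_compl_of_one_lt_rank (by
      rw [Complex.rank_real_complex]
      norm_num)).isConnected.isPreconnected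
  have han : AnalyticOnNhd ℂ G1 ((L.lattice : Set ℂ)ᶜ) := by
    apply DifferentiableOn.analyticOnNhd
    · exact fun z hz => (k1 z hz).differentiableWithinAt
    · exact L.isClosed_lattice.isOpen_compl
  have hzero := han.eqOn_zero_of_preconnected_of_eventuallyEq_zero hconn hh1 hz3
  apply ha
  refine tendsto_nhds_unique h3 ?_
  refine tendsto_const_nhds.congr' ?_
  filter_upwards [ell_disc L 0] with t ht
  rw [hzero ht]
  simp

/-- a doubly periodic function with at most one simple pole modulo the lattice is constant -/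
theorem no_simple_pole (L : PeriodPair) (F : ℂ → ℂ) (B : Set ℂ)
    (hB : ∀ t₀, ∀ᶠ t in 𝓝[≠] t₀, t ∉ B)
    (hper : ∀ z, ∀ l ∈ L.lattice, F (z + l) = F z) (hd : ∀ z ∉ B, DifferentiableAt ℂ F z)
    (P : ℂ)
    (hb : ∀ z ∈ B, z - P ∉ L.lattice → Tendsto (fun t => (t - z) * F t) (𝓝[≠] z) (𝓝 0))
    (hP : Tendsto (fun t => (t - P) ^ 2 * F t) (𝓝[≠] P) (𝓝 0)) :
    ∃ C, ∀ z ∉ B, F z = C := by
  have hd1 : ∀ z, ∀ᶠ t in 𝓝[≠] z, DifferentiableAt ℂ F t := fun z => (hB z).mono fun t ht => hd t ht
  have heq : ∀ z, ∀ᶠ t in 𝓝[≠] z, ell_h F t = F t := fun z =>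
    (hd1 z).mono fun t ht => ell_h_eq ht.continuousAt
  have hb1 : ∀ z, z - P ∉ L.lattice → Tendsto (fun t => (t - z) * F t) (𝓝[≠] z) (𝓝 0) := by
    intro z hz
    by_cases hzB : z ∈ B
    · exact hb z hzB hz
    · have h1 : Tendsto (fun t => (t - z) * F t) (𝓝 z) (𝓝 ((z - z) * F z)) := by
        apply ContinuousAt.tendsto
        exact (continuousAt_id.sub continuousAt_const).mul (hd z hzB).continuousAt
      rw [sub_self, zero_mul] at h1
      exact h1.mono_left nhdsWithin_le_nhds
  set G : ℂ → ℂ := fun z => ell_h F (z + P) with hG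
  have hG1 : ∀ z, z ∉ L.lattice → DifferentiableAt ℂ G z := by
    intro z hz
    have h1 := (ell_rem (hd1 (z + P)) (hb1 (z + P) (by rwa [add_sub_cancel_right]))).2
    exact ell_da h1
  have hG2 : ∀ z, ∀ l ∈ L.lattice, G (z + l) = G z := by
    intro z l hl
    simp only [hG]
    rw [add_right_comm]
    exact ell_h_per (z + P) l (fun w => hper w l hl)
  have hsq : Tendsto (fun t => (t - 0) * (t * G t)) (𝓝[≠] (0 : ℂ)) (𝓝 0) := by
    have h1 : Tendsto (fun t => (t - P) ^ 2 * ell_h F t) (𝓝[≠] P) (𝓝 0) := by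
      refine hP.congr' ?_
      filter_upwards [heq P] with t ht
      rw [ht]
    have h2 := ell_tr' 0 P
    rw [zero_add] at h2
    refine (h1.comp h2).congr (fun t => ?_)
    simp only [Function.comp, hG]
    ring
  have hK := (ell_rem (F := fun t => t * G t) (z := 0)
    ((ell_disc L 0).mono fun t ht => differentiableAt_id.mul (hG1 t ht)) hsq).1
  have ha := ell_core L G _ hG1 hG2 hK
  rw [ha] at hK
  refine liouville L F B hB hper hd (fun z hz => ?_)
  by_cases hzP : z - P ∈ L.lattice
  · have h1 := hK.comp (ell_tr 0 (z - P))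
    rw [zero_add] at h1
    have h2 := h1.comp (ell_tr (z - P) P)
    rw [sub_add_cancel] at h2
    refine h2.congr' ?_
    filter_upwards [heq z] with t ht
    simp only [Function.comp]
    have h3 := hG2 (t - P - (z - P)) (z - P) hzP
    rw [sub_add_cancel] at h3
    rw [← h3]
    simp only [hG]
    rw [sub_add_cancel, ht]
    ring
  · exact hb z hz hzP

end Pool.Agent.H36.NJ
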