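import Pool.Agent.H36.NJ.Loc

set_option autoImplicit false

/-! # Fibres and local sections -/

namespace Pool.Agent.H36.NJ

open Complex Filter
open scoped Topology

private lemma Fib_lattice_zero (L : PeriodPair) : ∀ᶠ z in 𝓝 (0 : ℂ), z ∈ L.lattice → z = 0 := by
  filter_upwards [L.compl_lattice_sdiff_singleton_mem_nhds 0] with z hz hzl
  by_contra h
  exact hz ⟨hzl, h⟩

namespace Sys

variable {L : PeriodPair} {X : Type} [TopologicalSpace X] (S : Sys L X)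

lemma fibre_add (j : Fin 6) (t l : ℂ) (hl : l ∈ L.lattice) : S.fibre j (t + l) = S.fibre j t := by
  ext x
  simp only [fibre, Set.mem_ofPred_eq]
  have h : S.f j x - (t + l) = (S.f j x - t) - l := by ring
  rw [h]
  exact L.lattice.sub_mem_iff_left hl

private lemma Fib_continuousAt (j : Fin 6) (x₀ : X) :
    ContinuousAt (fun y => S.w x₀ j (S.φ x₀ y)) x₀ := by
  have h1 : ContinuousAt (S.φ x₀) x₀ := (S.φ x₀).continuousAt (S.mem_source x₀)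
  exact ContinuousAt.comp (g := S.w x₀ j) (S.analytic x₀ j).continuousAt h1

private lemma Fib_tendsto (j : Fin 6) (x₀ : X) (t₀ : ℂ) :
    Tendsto (fun p : X × ℂ => S.w x₀ j (S.φ x₀ p.1) - p.2) (𝓝 x₀ ×ˢ 𝓝 t₀)
      (𝓝 (S.w x₀ j (S.φ x₀ x₀) - t₀)) := by
  have h1 : Tendsto (fun y => S.w x₀ j (S.φ x₀ y)) (𝓝 x₀) (𝓝 (S.w x₀ j (S.φ x₀ x₀))) :=
    S.Fib_continuousAt j x₀
  exact (h1.comp tendsto_fst).sub (tendsto_snd (f := 𝓝 x₀) (g := 𝓝 t₀))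

/-- points of the fibres near `(x₀, t₀)` in the chart -/
theorem mem_fibre_iff (j : Fin 6) (x₀ : X) (t₀ : ℂ) (h : x₀ ∈ S.fibre j t₀) :
    ∀ᶠ p : X × ℂ in 𝓝 x₀ ×ˢ 𝓝 t₀, p.1 ∈ S.fibre j p.2 ↔
      S.w x₀ j (S.φ x₀ p.1) - S.w x₀ j (S.φ x₀ x₀) = p.2 - t₀ := by
  have h0 : S.f j x₀ - S.w x₀ j (S.φ x₀ x₀) ∈ L.lattice := (S.lift x₀ j).self_of_nhds
  have h1 : S.w x₀ j (S.φ x₀ x₀) - t₀ ∈ L.lattice := by
    have h2 : S.w x₀ j (S.φ x₀ x₀) - t₀ =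
      (S.f j x₀ - t₀) - (S.f j x₀ - S.w x₀ j (S.φ x₀ x₀)) := by ring
    rw [h2]
    exact L.lattice.sub_mem h h0
  have h3 : ∀ᶠ p : X × ℂ in 𝓝 x₀ ×ˢ 𝓝 t₀,
      S.f j p.1 - S.w x₀ j (S.φ x₀ p.1) ∈ L.lattice :=
    tendsto_fst.eventually (S.lift x₀ j)
  have h4 : Tendsto (fun p : X × ℂ => (S.w x₀ j (S.φ x₀ p.1) - p.2) -
      (S.w x₀ j (S.φ x₀ x₀) - t₀)) (𝓝 x₀ ×ˢ 𝓝 t₀) (𝓝 0) := by
    have h5 := (S.Fib_tendsto j x₀ t₀).sub_const (S.w x₀ j (S.φ x₀ x₀) - t₀)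
    rwa [sub_self] at h5
  filter_upwards [h3, h4.eventually (Fib_lattice_zero L)] with p hp hq
  have key : p.1 ∈ S.fibre j p.2 ↔ (S.w x₀ j (S.φ x₀ p.1) - p.2) -
      (S.w x₀ j (S.φ x₀ x₀) - t₀) ∈ L.lattice := by
    have e1 : S.f j p.1 - p.2 = (S.f j p.1 - S.w x₀ j (S.φ x₀ p.1)) +
      ((S.w x₀ j (S.φ x₀ p.1) - p.2) - (S.w x₀ j (S.φ x₀ x₀) - t₀)) +
      (S.w x₀ j (S.φ x₀ x₀) - t₀) := by ring
    simp only [fibre, Set.mem_ofPred_eq]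
    rw [e1, L.lattice.add_mem_iff_left h1, L.lattice.add_mem_iff_right hp]
  rw [key]
  constructor
  · intro hm
    have := hq hm
    linear_combination this
  · intro he
    have : (S.w x₀ j (S.φ x₀ p.1) - p.2) - (S.w x₀ j (S.φ x₀ x₀) - t₀) = 0 := by
      linear_combination he
    rw [this]
    exact L.lattice.zero_mem

/-- no point of the fibre over `t` near `x₀` if `x₀` is not in the fibre over `t₀` -/
theorem not_mem_fibre (j : Fin 6) (x₀ : X) (t₀ : ℂ) (h : x₀ ∉ S.fibre j t₀) :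
    ∀ᶠ p : X × ℂ in 𝓝 x₀ ×ˢ 𝓝 t₀, p.1 ∉ S.fibre j p.2 := by
  have h0 : S.f j x₀ - S.w x₀ j (S.φ x₀ x₀) ∈ L.lattice := (S.lift x₀ j).self_of_nhds
  have h1 : S.w x₀ j (S.φ x₀ x₀) - t₀ ∉ L.lattice := by
    intro hc
    apply h
    have h2 : S.f j x₀ - t₀ = (S.f j x₀ - S.w x₀ j (S.φ x₀ x₀)) +
      (S.w x₀ j (S.φ x₀ x₀) - t₀) := by ring
    simp only [fibre, Set.mem_ofPred_eq]
    rw [h2]
    exact L.lattice.add_mem h0 hc
  have h3 : ∀ᶠ p : X × ℂ in 𝓝 x₀ ×ˢ 𝓝 t₀,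
      S.f j p.1 - S.w x₀ j (S.φ x₀ p.1) ∈ L.lattice :=
    tendsto_fst.eventually (S.lift x₀ j)
  have h4 : ∀ᶠ z in 𝓝 (S.w x₀ j (S.φ x₀ x₀) - t₀), z ∉ L.lattice :=
    L.isClosed_lattice.isOpen_compl.mem_nhds h1
  filter_upwards [h3, (S.Fib_tendsto j x₀ t₀).eventually h4] with p hp hq hc
  apply hq
  have e1 : S.w x₀ j (S.φ x₀ p.1) - p.2 = (S.f j p.1 - p.2) -
    (S.f j p.1 - S.w x₀ j (S.φ x₀ p.1)) := by ring
  rw [e1]
  exact L.lattice.sub_mem hc hp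

theorem fibre_finite [CompactSpace X] [ConnectedSpace X] (j : Fin 6) (t : ℂ) :
    (S.fibre j t).Finite := by
  apply finite_of_isolated
  intro x
  have hpair : Tendsto (fun y : X => (y, t)) (𝓝[≠] x) (𝓝 x ×ˢ 𝓝 t) :=
    (tendsto_id.mono_right nhdsWithin_le_nhds).prodMk (tendsto_const_nhds)
  by_cases hx : x ∈ S.fibre j t
  · have h1 : ∀ᶠ z in 𝓝[≠] (S.φ x x), S.w x j z - S.w x j (S.φ x x) ≠ 0 := by
      have han : AnalyticAt ℂ (fun z => S.w x j z - S.w x j (S.φ x x)) (S.φ x x) :=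
        (S.analytic x j).sub analyticAt_const
      rcases han.eventually_eq_zero_or_eventually_ne_zero with h | h
      · exfalso
        exact S.mult_ne_top j x (analyticOrderAt_eq_top.mpr h)
      · exact h
    filter_upwards [hpair.eventually (S.mem_fibre_iff j x t hx),
      (S.tendsto_chart x).eventually h1] with y hy hz hc
    apply hz
    rw [hy.mp hc, sub_self]
  · exact hpair.eventually (S.not_mem_fibre j x t hx)

/-- the fibre over `t` near `t₀` is near the fibre over `t₀` -/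
theorem fibre_near [CompactSpace X] (j : Fin 6) (t₀ : ℂ) (U : Set X)
    (hU : ∀ x ∈ S.fibre j t₀, U ∈ 𝓝 x) : ∀ᶠ t in 𝓝 t₀, S.fibre j t ⊆ U := by
  have h : ∀ᶠ t in 𝓝 t₀, ∀ x ∈ (Set.univ : Set X), x ∈ S.fibre j t → x ∈ U := by
    apply isCompact_univ.eventually_forall_of_forall_eventually
    intro x _
    rw [nhds_prod_eq]
    have h1 : ∀ᶠ p : X × ℂ in 𝓝 x ×ˢ 𝓝 t₀, p.1 ∈ S.fibre j p.2 → p.1 ∈ U := by
      by_cases hx : x ∈ S.fibre j t₀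
      · have h2 : ∀ᶠ p : X × ℂ in 𝓝 x ×ˢ 𝓝 t₀, p.1 ∈ U := tendsto_fst.eventually (hU x hx)
        filter_upwards [h2] with p hp _
        exact hp
      · filter_upwards [S.not_mem_fibre j x t₀ hx] with p hp hq
        exact absurd hq hp
    have h3 : Tendsto (fun z : ℂ × X => (z.2, z.1)) (𝓝 t₀ ×ˢ 𝓝 x) (𝓝 x ×ˢ 𝓝 t₀) :=
      tendsto_snd.prodMk tendsto_fst
    exact h3.eventually h1
  filter_upwards [h] with t ht x hx
  exact ht x (Set.mem_univ x) hx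

end Sys

end Pool.Agent.H36.NJ
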