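import Pool.Agent.H36.NJ.Two

set_option autoImplicit false

/-! # The functions `E c / e 0 * ℘ (f 1 - f 1 p)` near their poles -/

namespace Pool.Agent.H36.NJ

open Complex Filter
open scoped Topology

/-- the Weierstrass function near a lattice point: `z ^ 2 * ℘ z → 1` -/
lemma wp_tendsto (L : PeriodPair) (l : ℂ) (hl : l ∈ L.lattice) :
    Tendsto (fun z => (z - l) ^ 2 * L.weierstrassP z) (𝓝[≠] l) (𝓝 1) := by
  have hc : ContinuousAt (fun z => (z - l) ^ 2 * L.weierstrassPExcept l z + 1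
      - (z - l) ^ 2 / l ^ 2) l := by
    have h1 : ContinuousAt (L.weierstrassPExcept l) l :=
      (L.analyticAt_weierstrassPExcept l).continuousAt
    have h2 : ContinuousAt (fun z : ℂ => (z - l) ^ 2) l := by fun_prop
    exact ((h2.mul h1).add continuousAt_const).sub (h2.div_const _)
  have h0 : Tendsto (fun z => (z - l) ^ 2 * L.weierstrassPExcept l z + 1
      - (z - l) ^ 2 / l ^ 2) (𝓝[≠] l) (𝓝 1) := by
    have h3 := hc.tendsto
    simp only [sub_self, ne_eq, OfNat.ofNat_ne_zero, not_false_eq_true, zero_pow, zero_mul,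
      zero_add, zero_div, sub_zero] at h3
    exact h3.mono_left nhdsWithin_le_nhds
  refine h0.congr' ?_
  filter_upwards [self_mem_nhdsWithin] with z (hz : z ≠ l)
  rw [← L.ite_eq_one_sub_sq_mul_weierstrassP l hl z, if_neg hz]

/-- `u z - u z₀` through a punctured neighbourhood -/
private lemma Pol_sub_tendsto (u : ℂ → ℂ) (z₀ : ℂ) (hu : ContinuousAt u z₀)
    (hne : ∀ᶠ z in 𝓝[≠] z₀, u z ≠ u z₀) :
    Tendsto (fun z => u z - u z₀) (𝓝[≠] z₀) (𝓝[≠] 0) := by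
  refine tendsto_nhdsWithin_iff.2 ⟨?_, ?_⟩
  · have h : Tendsto (fun z => u z - u z₀) (𝓝 z₀) (𝓝 (u z₀ - u z₀)) :=
      hu.tendsto.sub tendsto_const_nhds
    rw [sub_self] at h
    exact h.mono_left nhdsWithin_le_nhds
  · filter_upwards [hne] with z hz
    exact sub_ne_zero.2 hz

/-- `(u z - u z₀) ^ 2 * ℘ (u z - u z₀) → 1` -/
private lemma Pol_sq_mul (L : PeriodPair) (u : ℂ → ℂ) (z₀ : ℂ) (hu : ContinuousAt u z₀)
    (hne : ∀ᶠ z in 𝓝[≠] z₀, u z ≠ u z₀) :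
    Tendsto (fun z => (u z - u z₀) ^ 2 * L.weierstrassP (u z - u z₀)) (𝓝[≠] z₀) (𝓝 1) := by
  have h := (wp_tendsto L 0 (zero_mem _)).comp (Pol_sub_tendsto u z₀ hu hne)
  refine h.congr (fun z => ?_)
  simp only [Function.comp_apply, sub_zero]

/-- difference quotients -/
private lemma Pol_quot (u : ℂ → ℂ) (z₀ : ℂ) (hu : DifferentiableAt ℂ u z₀) :
    Tendsto (fun z => (u z - u z₀) / (z - z₀)) (𝓝[≠] z₀) (𝓝 (deriv u z₀)) := by
  have h := hasDerivAt_iff_tendsto_slope.1 hu.hasDerivAt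
  refine h.congr (fun z => ?_)
  rw [slope_def_field]

/-- a function with nonzero derivative at `z₀` takes the value at `z₀` only there -/
private lemma Pol_ne (u : ℂ → ℂ) (z₀ : ℂ) (hu : DifferentiableAt ℂ u z₀) (h : deriv u z₀ ≠ 0) :
    ∀ᶠ z in 𝓝[≠] z₀, u z ≠ u z₀ := by
  filter_upwards [(Pol_quot u z₀ hu).eventually_ne h] with z hz h0
  rw [h0, sub_self, zero_div] at hz
  exact hz rfl

/-- `(z - z₀) ^ 2 * ℘ (u z - u z₀) → 1 / u' ^ 2` -/
private lemma Pol_sq_mul' (L : PeriodPair) (u : ℂ → ℂ) (z₀ : ℂ) (hu : DifferentiableAt ℂ u z₀)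
    (h : deriv u z₀ ≠ 0) :
    Tendsto (fun z => (z - z₀) ^ 2 * L.weierstrassP (u z - u z₀)) (𝓝[≠] z₀)
      (𝓝 (1 / deriv u z₀ ^ 2)) := by
  have hne := Pol_ne u z₀ hu h
  have h1 := (Pol_sq_mul L u z₀ hu.continuousAt hne).div ((Pol_quot u z₀ hu).pow 2)
    (pow_ne_zero 2 h)
  refine h1.congr' ?_
  filter_upwards [hne, self_mem_nhdsWithin] with z hz (hz0 : z ≠ z₀)
  have h2 : z - z₀ ≠ 0 := sub_ne_zero.2 hz0
  have h3 : u z - u z₀ ≠ 0 := sub_ne_zero.2 hz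
  simp only [Pi.div_apply]
  field_simp

namespace Sys

variable {L : PeriodPair} {X : Type} [TopologicalSpace X] [CompactSpace X] [T2Space X]
  [ConnectedSpace X] (S : Sys L X)

/-- the function `E c / e 0 * ℘ (f 1 - f 1 p)` -/
noncomputable def HH (p : X) (c : Fin 6 → ℂ) (y : X) : ℂ :=
  S.E c y / S.e 0 y * L.weierstrassP (S.f 1 y - S.f 1 p)

omit [CompactSpace X] [T2Space X] [ConnectedSpace X] in
/-- the function `℘ (f 1 - f 1 p)` is holomorphic off its poles -/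
private lemma Pol_wp_hol (p x : X) (h1 : S.f 1 x - S.f 1 p ∉ L.lattice) :
    S.Hol (fun y => L.weierstrassP (S.f 1 y - S.f 1 p)) x :=
  S.hol_comp 1 x (S.f 1 p) L.weierstrassP (fun z l hl => L.weierstrassP_add_coe z ⟨l, hl⟩)
    (L.analyticOnNhd_weierstrassP _ h1)

omit [CompactSpace X] [T2Space X] [ConnectedSpace X] in
theorem HH_hol (p : X) (c : Fin 6 → ℂ) (x : X) (h0 : S.e 0 x ≠ 0)
    (h1 : S.f 1 x - S.f 1 p ∉ L.lattice) : S.Hol (S.HH p c) x :=
  Hol.mul S (S.hol_quot c 0 x h0) (S.Pol_wp_hol p x h1)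

omit [CompactSpace X] [T2Space X] in
/-- no pole of `℘` and arbitrary ramification of `f 0` -/
theorem HH_growth (p : X) (c : Fin 6 → ℂ) (x : X) (h1 : S.f 1 x - S.f 1 p ∉ L.lattice) :
    Tendsto (fun y => (S.w x 0 (S.φ x y) - S.w x 0 (S.φ x x)) * S.HH p c y)
      (𝓝[≠] x) (𝓝 0) := by
  have h2 : Tendsto (fun y => L.weierstrassP (S.f 1 y - S.f 1 p)) (𝓝[≠] x)
      (𝓝 (L.weierstrassP (S.f 1 x - S.f 1 p))) :=
    (Hol.continuousAt S (S.Pol_wp_hol p x h1)).tendsto.mono_left nhdsWithin_le_nhds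
  have h3 := (S.quot_growth c 0 x).mul h2
  rw [zero_mul] at h3
  refine h3.congr (fun y => ?_)
  unfold HH
  ring

omit [CompactSpace X] [T2Space X] [ConnectedSpace X] in
/-- the Weierstrass function near a point congruent to `p` -/
private lemma Pol_key (p x : X) (h1 : S.f 1 x - S.f 1 p ∈ L.lattice) :
    ∀ᶠ y in 𝓝 x, L.weierstrassP (S.f 1 y - S.f 1 p) =
      L.weierstrassP (S.w x 1 (S.φ x y) - S.w x 1 (S.φ x x)) := by
  have hx := (S.lift x 1).self_of_nhds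
  filter_upwards [S.lift x 1] with y hy
  have hl : (S.f 1 y - S.w x 1 (S.φ x y)) - (S.f 1 x - S.w x 1 (S.φ x x))
      + (S.f 1 x - S.f 1 p) ∈ L.lattice := add_mem (sub_mem hy hx) h1
  have h := L.weierstrassP_add_coe (S.w x 1 (S.φ x y) - S.w x 1 (S.φ x x)) ⟨_, hl⟩
  rw [← h]
  congr 1
  simp only
  ring

omit [CompactSpace X] [T2Space X] [ConnectedSpace X] in
/-- the quotient of forms in the chart -/
private lemma Pol_form (c : Fin 6 → ℂ) (x : X) :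
    ∀ᶠ y in 𝓝 x, S.E c y / S.e 0 y =
      (∑ i, c i * deriv (S.w x i) (S.φ x y)) / deriv (S.w x 0) (S.φ x y) := by
  filter_upwards [S.form x] with y ⟨κ, hκ, h⟩
  have h1 : S.E c y = κ * ∑ i, c i * deriv (S.w x i) (S.φ x y) := by
    unfold E
    rw [Finset.mul_sum]
    refine Finset.sum_congr rfl (fun i _ => ?_)
    rw [h i]
    ring
  rw [h1, h 0, mul_div_mul_left _ _ hκ]

/-- the local computation: `n = 1` and a double zero, or `n = 2` and a simple zero -/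
private lemma Pol_local (w0 w1 W : ℂ → ℂ) (z₀ : ℂ) (h0 : AnalyticAt ℂ w0 z₀)
    (h1 : AnalyticAt ℂ w1 z₀) (hd0 : deriv w0 z₀ ≠ 0) (hd1 : deriv w1 z₀ ≠ 0)
    (hW : DifferentiableAt ℂ W z₀) (hW0 : W z₀ = 0) (hW1 : deriv W z₀ = 0) :
    Tendsto (fun z => (w0 z - w0 z₀) * (W z / deriv w0 z * L.weierstrassP (w1 z - w1 z₀)))
      (𝓝[≠] z₀) (𝓝 0) := by
  have e1 := Pol_quot w0 z₀ h0.differentiableAt
  have e2 := Pol_quot W z₀ hW
  have e3 : Tendsto (deriv w0) (𝓝[≠] z₀) (𝓝 (deriv w0 z₀)) :=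
    h0.deriv.continuousAt.tendsto.mono_left nhdsWithin_le_nhds
  have e4 := Pol_sq_mul' L w1 z₀ h1.differentiableAt hd1
  have e5 := (e1.mul (e2.div e3 hd0)).mul e4
  rw [hW1, zero_div, mul_zero, zero_mul] at e5
  refine e5.congr' ?_
  filter_upwards [self_mem_nhdsWithin, e3.eventually_ne hd0] with z (hz : z ≠ z₀) hz0
  have h2 : z - z₀ ≠ 0 := sub_ne_zero.2 hz
  simp only [Pi.div_apply, hW0, sub_zero]
  field_simp

private lemma Pol_local2 (w0 w1 W : ℂ → ℂ) (z₀ : ℂ) (h0 : AnalyticAt ℂ w0 z₀)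
    (h1 : AnalyticAt ℂ w1 z₀) (hd0 : deriv w0 z₀ ≠ 0) (hd1 : deriv w1 z₀ ≠ 0)
    (hW : ContinuousAt W z₀) (hW0 : W z₀ = 0) :
    Tendsto (fun z => (w0 z - w0 z₀) ^ 2 * (W z / deriv w0 z * L.weierstrassP (w1 z - w1 z₀)))
      (𝓝[≠] z₀) (𝓝 0) := by
  have e1 := (Pol_quot w0 z₀ h0.differentiableAt).pow 2
  have e2 : Tendsto W (𝓝[≠] z₀) (𝓝 (W z₀)) := hW.tendsto.mono_left nhdsWithin_le_nhds
  have e3 : Tendsto (deriv w0) (𝓝[≠] z₀) (𝓝 (deriv w0 z₀)) :=
    h0.deriv.continuousAt.tendsto.mono_left nhdsWithin_le_nhds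
  have e4 := Pol_sq_mul' L w1 z₀ h1.differentiableAt hd1
  have e5 := (e1.mul (e2.div e3 hd0)).mul e4
  rw [hW0, zero_div, mul_zero, zero_mul] at e5
  refine e5.congr' ?_
  filter_upwards [self_mem_nhdsWithin, e3.eventually_ne hd0] with z (hz : z ≠ z₀) hz0
  have h2 : z - z₀ ≠ 0 := sub_ne_zero.2 hz
  simp only [Pi.div_apply]
  field_simp

omit [CompactSpace X] [T2Space X] [ConnectedSpace X] in
private lemma Pol_W_analytic (c : Fin 6 → ℂ) (x : X) :
    AnalyticAt ℂ (fun z => ∑ i, c i * deriv (S.w x i) z) (S.φ x x) :=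
  Finset.analyticAt_fun_sum _ (fun i _ => analyticAt_const.mul (S.analytic x i).deriv)

omit [CompactSpace X] [T2Space X] [ConnectedSpace X] in
/-- a pole of `℘` at which `f 0`, `f 1` are unramified and `E c` has a double zero -/
theorem HH_growth_q (p : X) (c : Fin 6 → ℂ) (x : X) (h0 : S.e 0 x ≠ 0) (he : S.e 1 x ≠ 0)
    (h1 : S.f 1 x - S.f 1 p ∈ L.lattice)
    (hc : ∑ i, c i * deriv (S.w x i) (S.φ x x) = 0)
    (hc' : ∑ i, c i * deriv (deriv (S.w x i)) (S.φ x x) = 0) :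
    Tendsto (fun y => (S.w x 0 (S.φ x y) - S.w x 0 (S.φ x x)) * S.HH p c y)
      (𝓝[≠] x) (𝓝 0) := by
  have hd0 : deriv (S.w x 0) (S.φ x x) ≠ 0 := fun h => h0 ((S.e_eq_zero_iff 0 x).2 h)
  have hd1 : deriv (S.w x 1) (S.φ x x) ≠ 0 := fun h => he ((S.e_eq_zero_iff 1 x).2 h)
  have hW1 : deriv (fun z => ∑ i, c i * deriv (S.w x i) z) (S.φ x x) = 0 := by
    have hs : HasDerivAt (fun z => ∑ i, c i * deriv (S.w x i) z)
        (∑ i, c i * deriv (deriv (S.w x i)) (S.φ x x)) (S.φ x x) :=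
      HasDerivAt.fun_sum (fun i _ =>
        ((S.analytic x i).deriv.differentiableAt.hasDerivAt).const_mul (c i))
    rw [hs.deriv, hc']
  have h := (Pol_local (L := L) (S.w x 0) (S.w x 1) (fun z => ∑ i, c i * deriv (S.w x i) z)
    (S.φ x x) (S.analytic x 0) (S.analytic x 1) hd0 hd1 (S.Pol_W_analytic c x).differentiableAt
    hc hW1).comp (S.tendsto_chart x)
  refine h.congr' ?_
  filter_upwards [nhdsWithin_le_nhds (S.Pol_key p x h1), nhdsWithin_le_nhds (S.Pol_form c x)]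
    with y hy1 hy2
  simp only [Function.comp_apply, HH]
  rw [hy1, hy2]

omit [CompactSpace X] [T2Space X] [ConnectedSpace X] in
/-- a pole of `℘` at which `f 0`, `f 1` are unramified and `E c` has a zero -/
theorem HH_growth_p (p : X) (c : Fin 6 → ℂ) (x : X) (h0 : S.e 0 x ≠ 0) (he : S.e 1 x ≠ 0)
    (h1 : S.f 1 x - S.f 1 p ∈ L.lattice)
    (hc : ∑ i, c i * deriv (S.w x i) (S.φ x x) = 0) :
    Tendsto (fun y => (S.w x 0 (S.φ x y) - S.w x 0 (S.φ x x)) ^ 2 * S.HH p c y)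
      (𝓝[≠] x) (𝓝 0) := by
  have hd0 : deriv (S.w x 0) (S.φ x x) ≠ 0 := fun h => h0 ((S.e_eq_zero_iff 0 x).2 h)
  have hd1 : deriv (S.w x 1) (S.φ x x) ≠ 0 := fun h => he ((S.e_eq_zero_iff 1 x).2 h)
  have h := (Pol_local2 (L := L) (S.w x 0) (S.w x 1) (fun z => ∑ i, c i * deriv (S.w x i) z)
    (S.φ x x) (S.analytic x 0) (S.analytic x 1) hd0 hd1 (S.Pol_W_analytic c x).continuousAt
    hc).comp (S.tendsto_chart x)
  refine h.congr' ?_
  filter_upwards [nhdsWithin_le_nhds (S.Pol_key p x h1), nhdsWithin_le_nhds (S.Pol_form c x)]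
    with y hy1 hy2
  simp only [Function.comp_apply, HH]
  rw [hy1, hy2]

omit [CompactSpace X] [T2Space X] in
/-- `℘ (f 1 y - f 1 p) → ∞` as `y → p` -/
theorem wp_atTop (p : X) :
    Tendsto (fun y => ‖L.weierstrassP (S.f 1 y - S.f 1 p)‖) (𝓝[≠] p) atTop := by
  have hu : ContinuousAt (S.w p 1) (S.φ p p) := (S.analytic p 1).continuousAt
  have hne : ∀ᶠ z in 𝓝[≠] (S.φ p p), S.w p 1 z ≠ S.w p 1 (S.φ p p) := by
    have ha : AnalyticAt ℂ (fun z => S.w p 1 z - S.w p 1 (S.φ p p)) (S.φ p p) :=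
      (S.analytic p 1).sub analyticAt_const
    rcases ha.eventually_eq_zero_or_eventually_ne_zero with h | h
    · exact absurd (analyticOrderAt_eq_top.2 h) (S.mult_ne_top 1 p)
    · filter_upwards [h] with z hz
      exact sub_ne_zero.1 hz
  have h1 := Pol_sq_mul L (S.w p 1) (S.φ p p) hu hne
  have h2 := Pol_sub_tendsto (S.w p 1) (S.φ p p) hu hne
  -- `‖u ^ 2‖⁻¹ → ∞`
  have h3 : Tendsto (fun z => ‖(S.w p 1 z - S.w p 1 (S.φ p p)) ^ 2‖⁻¹) (𝓝[≠] (S.φ p p)) atTop := by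
    refine tendsto_inv_nhdsGT_zero.comp (tendsto_nhdsWithin_iff.2 ⟨?_, ?_⟩)
    · have h4 := ((tendsto_nhdsWithin_iff.1 h2).1.pow 2).norm
      simpa using h4
    · filter_upwards [hne] with z hz
      exact norm_pos_iff.2 (pow_ne_zero 2 (sub_ne_zero.2 hz))
  have h5 : Tendsto (fun z => ‖L.weierstrassP (S.w p 1 z - S.w p 1 (S.φ p p))‖)
      (𝓝[≠] (S.φ p p)) atTop := by
    have h6 := h3.atTop_mul_pos (by norm_num : (0 : ℝ) < ‖(1 : ℂ)‖) h1.norm
    refine h6.congr' ?_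
    filter_upwards [hne] with z hz
    have h7 : ‖(S.w p 1 z - S.w p 1 (S.φ p p)) ^ 2‖ ≠ 0 :=
      norm_ne_zero_iff.2 (pow_ne_zero 2 (sub_ne_zero.2 hz))
    rw [norm_mul, inv_mul_cancel_left₀ h7]
  refine (h5.comp (S.tendsto_chart p)).congr' ?_
  have h8 := S.Pol_key p p (by rw [sub_self]; exact zero_mem _)
  filter_upwards [nhdsWithin_le_nhds h8] with y hy
  simp only [Function.comp_apply]
  rw [hy]

end Sys

end Pool.Agent.H36.NJ
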