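import Pool.Agent.H36.NJ.Pts
import Pool.Agent.H36.NJ.Pol

set_option autoImplicit false

/-! # The contradiction -/

namespace Pool.Agent.H36.NJ

open Complex Filter
open scoped Topology

lemma fin_discrete (L : PeriodPair) (a t₀ : ℂ) : ∀ᶠ t in 𝓝[≠] t₀, t - a ∉ L.lattice := by
  have h1 : Tendsto (fun t : ℂ => t - a) (𝓝 t₀) (𝓝 (t₀ - a)) := by
    have : ContinuousAt (fun t : ℂ => t - a) t₀ := by fun_prop
    exact this
  have h2 := h1.eventually (L.compl_lattice_sdiff_singleton_mem_nhds (t₀ - a))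
  filter_upwards [nhdsWithin_le_nhds h2, self_mem_nhdsWithin] with t ht hne hmem
  apply ht
  refine ⟨hmem, ?_⟩
  intro h
  apply hne
  have h' : t - a = t₀ - a := h
  exact sub_left_injective h'

lemma fin_wp_per (L : PeriodPair) (z l : ℂ) (hl : l ∈ L.lattice) :
    L.weierstrassP (z + l) = L.weierstrassP z := L.weierstrassP_add_coe z ⟨l, hl⟩

namespace Sys

variable {L : PeriodPair} {X : Type} [TopologicalSpace X] [CompactSpace X] [T2Space X]
  [ConnectedSpace X] (S : Sys L X)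

omit [CompactSpace X] [T2Space X] [ConnectedSpace X] in
lemma fin_mem_congr {j : Fin 6} {x : X} {t t' : ℂ} (h : x ∈ S.fibre j t)
    (h' : t - t' ∈ L.lattice) : x ∈ S.fibre j t' := by
  have : S.f j x - t' = (S.f j x - t) + (t - t') := by ring
  change S.f j x - t' ∈ L.lattice
  rw [this]
  exact L.lattice.add_mem h h'

omit [CompactSpace X] [T2Space X] [ConnectedSpace X] in
lemma fin_mem_self (j : Fin 6) (x : X) : x ∈ S.fibre j (S.f j x) := by
  change S.f j x - S.f j x ∈ L.lattice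
  rw [sub_self]
  exact L.lattice.zero_mem

omit [CompactSpace X] [T2Space X] [ConnectedSpace X] in
lemma fin_B_congr {j : Fin 6} {t t' : ℂ} (h : t ∈ S.B j) (h' : t - t' ∈ L.lattice) :
    t' ∈ S.B j := by
  obtain ⟨x, hx, he⟩ := h
  exact ⟨x, S.fin_mem_congr hx h', he⟩

omit [CompactSpace X] [T2Space X] [ConnectedSpace X] in
/-- if `x` is in the fibre over `z` and over no bad value, then `f 1 x` is not congruent to
`f 1 p` -/
lemma fin_not_mem {p q x : X} (hg : S.fibre 1 (S.f 1 p) = {p, q}) {z : ℂ}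
    (hx : x ∈ S.fibre 0 z) (hp : z - S.f 0 p ∉ L.lattice) (hq : z - S.f 0 q ∉ L.lattice) :
    S.f 1 x - S.f 1 p ∉ L.lattice := by
  intro h
  have h1 : x ∈ S.fibre 1 (S.f 1 p) := h
  rw [hg] at h1
  have hx' : S.f 0 x - z ∈ L.lattice := hx
  have hx2 : z - S.f 0 x ∈ L.lattice := by
    have := L.lattice.neg_mem hx'
    rwa [neg_sub] at this
  rcases h1 with rfl | h1
  · exact hp hx2
  · rw [Set.mem_singleton_iff] at h1
    subst h1
    exact hq hx2

/-- the trace of `HH p c` is constant if `c` kills the poles -/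
theorem trace_HH_const (h2 : ∀ j, ∀ t ∉ S.B j, (S.fibre j t).ncard = 2) (p p' q : X)
    (hp : S.f 0 p ∉ S.B 0) (hf : S.fibre 0 (S.f 0 p) = {p, p'})
    (hn : S.f 1 p' - S.f 1 p ∉ L.lattice) (hp1 : S.f 1 p ∉ S.B 1) (hqp : q ≠ p)
    (hg : S.fibre 1 (S.f 1 p) = {p, q}) (hq : S.f 0 q ∉ S.B 0) (c : Fin 6 → ℂ)
    (hcp : ∑ i, c i * deriv (S.w p i) (S.φ p p) = 0)
    (hcq : ∑ i, c i * deriv (S.w q i) (S.φ q q) = 0)
    (hcq' : ∑ i, c i * deriv (deriv (S.w q i)) (S.φ q q) = 0) :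
    ∃ C, ∀ t ∉ S.B 0, t - S.f 0 p ∉ L.lattice → t - S.f 0 q ∉ L.lattice →
      S.Tr 0 (S.HH p c) t = C := by
  have hcard : ∀ z, ∀ᶠ t in 𝓝[≠] z, (S.fibre 0 t).ncard ≤ 2 := fun z => by
    filter_upwards [S.B_discrete 0 z] with t ht
    exact (h2 0 t ht).le
  have he0q : S.e 0 q ≠ 0 := fun h => hq ⟨q, S.fin_mem_self 0 q, h⟩
  have he0p : S.e 0 p ≠ 0 := fun h => hp ⟨p, S.fin_mem_self 0 p, h⟩
  have he1q : S.e 1 q ≠ 0 := fun h => hp1 ⟨q, by rw [hg]; simp, h⟩
  have he1p : S.e 1 p ≠ 0 := fun h => hp1 ⟨p, by rw [hg]; simp, h⟩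
  have hqmem : S.f 1 q - S.f 1 p ∈ L.lattice := by
    have : q ∈ S.fibre 1 (S.f 1 p) := by rw [hg]; simp
    exact this
  suffices main : ∃ C, ∀ z ∉ {t | t ∈ S.B 0 ∨ t - S.f 0 p ∈ L.lattice ∨ t - S.f 0 q ∈ L.lattice},
      S.Tr 0 (S.HH p c) z = C by
    obtain ⟨C, hC⟩ := main
    refine ⟨C, fun t h1 h3 h4 => hC t ?_⟩
    rintro (h | h | h)
    · exact h1 h
    · exact h3 h
    · exact h4 h
  refine no_simple_pole L (S.Tr 0 (S.HH p c)) _ ?_ (fun z l hl => S.Tr_per 0 _ z l hl) ?_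
    (S.f 0 p) ?_ ?_
  · intro t₀
    filter_upwards [S.B_discrete 0 t₀, fin_discrete L (S.f 0 p) t₀, fin_discrete L (S.f 0 q) t₀]
      with t h1 h3 h4
    rintro (h | h | h)
    · exact h1 h
    · exact h3 h
    · exact h4 h
  · intro z hz
    have hz1 : z ∉ S.B 0 := fun h => hz (Or.inl h)
    have hz2 : z - S.f 0 p ∉ L.lattice := fun h => hz (Or.inr (Or.inl h))
    have hz3 : z - S.f 0 q ∉ L.lattice := fun h => hz (Or.inr (Or.inr h))
    refine (S.Tr_hol 0 _ z hz1 (fun x hx => ?_)).differentiableAt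
    exact S.HH_hol p c x (fun h => hz1 ⟨x, hx, h⟩) (S.fin_not_mem hg hx hz2 hz3)
  · intro z hz hzP
    have key : Tendsto (fun t => (t - z) ^ 1 * S.Tr 0 (S.HH p c) t) (𝓝[≠] z) (𝓝 0) := by
      refine S.Tr_growth 0 _ z 1 2 (hcard z) (fun x hx => ?_)
      simp only [pow_one]
      by_cases h1 : S.f 1 x - S.f 1 p ∈ L.lattice
      · have h3 : x ∈ S.fibre 1 (S.f 1 p) := h1
        rw [hg] at h3
        rcases h3 with rfl | h3
        · exfalso
          apply hzP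
          have := L.lattice.neg_mem (show S.f 0 x - z ∈ L.lattice from hx)
          rwa [neg_sub] at this
        · rw [Set.mem_singleton_iff] at h3
          subst h3
          exact S.HH_growth_q p c x he0q he1q hqmem hcq hcq'
      · exact S.HH_growth p c x h1
    simpa only [pow_one] using key
  · refine S.Tr_growth 0 _ (S.f 0 p) 2 2 (hcard _) (fun x hx => ?_)
    rw [hf] at hx
    rcases hx with rfl | hx
    · refine S.HH_growth_p x c x he0p he1p ?_ hcp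
      rw [sub_self]
      exact L.lattice.zero_mem
    · rw [Set.mem_singleton_iff] at hx
      subst hx
      have h3 := S.HH_growth p c x hn
      have h4 : Tendsto (fun y => S.w x 0 (S.φ x y) - S.w x 0 (S.φ x x)) (𝓝[≠] x) (𝓝 0) := by
        have hc : ContinuousAt (fun y => S.w x 0 (S.φ x y) - S.w x 0 (S.φ x x)) x := by
          refine ContinuousAt.sub ?_ continuousAt_const
          exact ContinuousAt.comp (S.analytic x 0).continuousAt
            ((S.φ x).continuousAt (S.mem_source x))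
        have := hc.tendsto.mono_left (nhdsWithin_le_nhds (s := {x}ᶜ))
        simpa using this
      have h5 := h4.mul h3
      rw [mul_zero] at h5
      refine h5.congr (fun y => ?_)
      ring

/-- both traces vanish near `p`: then `c = 0` -/
theorem eq_zero_of_traces (h2 : ∀ j, ∀ t ∉ S.B j, (S.fibre j t).ncard = 2) (p p' : X)
    (hp : S.f 0 p ∉ S.B 0) (hpp : p' ≠ p) (hf : S.fibre 0 (S.f 0 p) = {p, p'})
    (hn : S.f 1 p' - S.f 1 p ∉ L.lattice) (c : Fin 6 → ℂ)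
    (h0 : ∀ᶠ t in 𝓝[≠] (S.f 0 p), S.Tr 0 (fun y => S.E c y / S.e 0 y) t = 0)
    (h1 : ∀ᶠ t in 𝓝[≠] (S.f 0 p), S.Tr 0 (S.HH p c) t = 0) : c = 0 := by
  by_contra hc
  obtain ⟨s, hs, hsec⟩ := S.fibre_sections 0 (S.f 0 p) hp
  rw [hf] at hsec
  obtain ⟨hsp, hcp, -⟩ := hs p (by rw [hf]; simp)
  obtain ⟨hsp', hcp', -⟩ := hs p' (by rw [hf]; simp)
  -- the section at `p` tends to `p` and is different from `p`
  have hne : ∀ᶠ t in 𝓝[≠] (S.f 0 p), s p t ≠ p := by
    filter_upwards [nhdsWithin_le_nhds hsec, fin_discrete L (S.f 0 p) (S.f 0 p)] with t ht ht2 h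
    have h3 : s p t ∈ S.fibre 0 t := by
      rw [ht.1]
      exact ⟨p, by simp, rfl⟩
    rw [h] at h3
    apply ht2
    have := L.lattice.neg_mem (show S.f 0 p - t ∈ L.lattice from h3)
    rwa [neg_sub] at this
  have htend : Tendsto (s p) (𝓝[≠] (S.f 0 p)) (𝓝[≠] p) := by
    refine tendsto_nhdsWithin_of_tendsto_nhds_of_eventually_within _ ?_ hne
    have h3 := hcp.tendsto
    rw [hsp] at h3
    exact h3.mono_left nhdsWithin_le_nhds
  have htend' : Tendsto (s p') (𝓝[≠] (S.f 0 p)) (𝓝 p') := by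
    have h3 := hcp'.tendsto
    rw [hsp'] at h3
    exact h3.mono_left nhdsWithin_le_nhds
  have hP1 := (S.wp_atTop p).comp htend
  have hP2 : ContinuousAt (fun y => L.weierstrassP (S.f 1 y - S.f 1 p)) p' := by
    refine Hol.continuousAt S (S.hol_comp 1 p' (S.f 1 p) L.weierstrassP
      (fun z l hl => fin_wp_per L z l hl) ?_)
    exact L.analyticOnNhd_weierstrassP _ hn
  have hP2' := (hP2.norm.tendsto.comp htend').eventually
    (gt_mem_nhds (lt_add_one (‖L.weierstrassP (S.f 1 p' - S.f 1 p)‖)))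
  have hP1' := hP1.eventually_ge_atTop (‖L.weierstrassP (S.f 1 p' - S.f 1 p)‖ + 1)
  have hE := htend.eventually (S.E_ne_zero c hc p)
  have hee := htend.eventually (S.e_ne_zero 0 p)
  have hall : ∀ᶠ t in 𝓝[≠] (S.f 0 p), False := by
    filter_upwards [h0, h1, nhdsWithin_le_nhds hsec, hP1', hP2', hE, hee] with t a0 a1 a2 a3 a4 a5 a6
    obtain ⟨a2, a2'⟩ := a2
    have hpair : S.fibre 0 t = {s p t, s p' t} := by
      rw [a2, Set.image_pair]
    have hdist : s p t ≠ s p' t := fun h => hpp (a2' (by simp) (by simp) h).symm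
    rw [Tr, hpair, finsum_mem_pair hdist] at a0 a1
    simp only [HH] at a1
    simp only [Function.comp] at a3 a4
    have hneq : L.weierstrassP (S.f 1 (s p t) - S.f 1 p) ≠
        L.weierstrassP (S.f 1 (s p' t) - S.f 1 p) := by
      intro h
      rw [h] at a3
      exact absurd a3 (not_le.2 a4)
    have h3 : S.E c (s p t) / S.e 0 (s p t) * (L.weierstrassP (S.f 1 (s p t) - S.f 1 p) -
        L.weierstrassP (S.f 1 (s p' t) - S.f 1 p)) = 0 := by
      linear_combination a1 - L.weierstrassP (S.f 1 (s p' t) - S.f 1 p) * a0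
    rcases mul_eq_zero.1 h3 with h4 | h4
    · exact div_ne_zero a5 a6 h4
    · exact hneq (sub_eq_zero.1 h4)
  exact hall.exists.elim (fun _ h => h)

/-- five linear conditions on `ℂ⁶` -/
lemma exists_ne_zero (l : Fin 5 → ((Fin 6 → ℂ) →ₗ[ℂ] ℂ)) : ∃ c : Fin 6 → ℂ, c ≠ 0 ∧ ∀ k, l k c = 0 := by
  have h : LinearMap.ker (LinearMap.pi l) ≠ ⊥ := by
    apply LinearMap.ker_ne_bot_of_finrank_lt
    simp
  obtain ⟨c, hc, hc0⟩ := Submodule.exists_mem_ne_zero_of_ne_bot h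
  refine ⟨c, hc0, fun k => ?_⟩
  have := congrFun (LinearMap.mem_ker.1 hc) k
  simpa using this

/-- the trace as a linear functional -/
lemma fin_trace_linear (G : X → ℂ) (t : ℂ) : ∃ l : (Fin 6 → ℂ) →ₗ[ℂ] ℂ,
    ∀ c, l c = S.Tr 0 (fun y => S.E c y / S.e 0 y * G y) t := by
  refine ⟨∑ y ∈ (S.fibre_finite 0 t).toFinset, ∑ i, (S.e i y / S.e 0 y * G y) • LinearMap.proj i,
    fun c => ?_⟩
  rw [Tr, finsum_mem_eq_finite_toFinset_sum _ (S.fibre_finite 0 t), LinearMap.sum_apply]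
  refine Finset.sum_congr rfl (fun y _ => ?_)
  rw [LinearMap.sum_apply, E, Finset.sum_div, Finset.sum_mul]
  refine Finset.sum_congr rfl (fun i _ => ?_)
  simp only [LinearMap.smul_apply, LinearMap.proj_apply, smul_eq_mul]
  ring

/-- there is no such system -/
theorem no_sys (h : S.DegLe) : False := by
  have h2 := S.deg_two h
  obtain ⟨p, p', q, hp, hpp, hf, hn, hp1, hqp, hg, hq⟩ := S.exists_pts h2
  obtain ⟨t₁, ht1, ht2, ht3⟩ : ∃ t₁, t₁ ∉ S.B 0 ∧ t₁ - S.f 0 p ∉ L.lattice ∧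
      t₁ - S.f 0 q ∉ L.lattice := by
    have := ((S.B_discrete 0 0).and ((fin_discrete L (S.f 0 p) 0).and
      (fin_discrete L (S.f 0 q) 0))).exists
    obtain ⟨t, a, b, d⟩ := this
    exact ⟨t, a, b, d⟩
  obtain ⟨l0, hl0⟩ := S.fin_trace_linear (fun _ => 1) t₁
  obtain ⟨l4, hl4⟩ := S.fin_trace_linear (fun y => L.weierstrassP (S.f 1 y - S.f 1 p)) t₁
  obtain ⟨c, hc0, hc⟩ := exists_ne_zero ![l0,
    ∑ i, (deriv (S.w p i) (S.φ p p)) • LinearMap.proj i,
    ∑ i, (deriv (S.w q i) (S.φ q q)) • LinearMap.proj i,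
    ∑ i, (deriv (deriv (S.w q i)) (S.φ q q)) • LinearMap.proj i, l4]
  have e0 : l0 c = 0 := hc 0
  have e1 : (∑ i, (deriv (S.w p i) (S.φ p p)) • (LinearMap.proj i : (Fin 6 → ℂ) →ₗ[ℂ] ℂ)) c = 0 :=
    hc 1
  have e2 : (∑ i, (deriv (S.w q i) (S.φ q q)) • (LinearMap.proj i : (Fin 6 → ℂ) →ₗ[ℂ] ℂ)) c = 0 :=
    hc 2
  have e3 : (∑ i, (deriv (deriv (S.w q i)) (S.φ q q)) •
    (LinearMap.proj i : (Fin 6 → ℂ) →ₗ[ℂ] ℂ)) c = 0 := hc 3
  have e4 : l4 c = 0 := hc 4
  have conv : ∀ a : Fin 6 → ℂ, (∑ i, (a i) • (LinearMap.proj i : (Fin 6 → ℂ) →ₗ[ℂ] ℂ)) c =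
      ∑ i, c i * a i := fun a => by
    rw [LinearMap.sum_apply]
    refine Finset.sum_congr rfl (fun i _ => ?_)
    simp [mul_comm]
  rw [conv (fun i => deriv (S.w p i) (S.φ p p))] at e1
  rw [conv (fun i => deriv (S.w q i) (S.φ q q))] at e2
  rw [conv (fun i => deriv (deriv (S.w q i)) (S.φ q q))] at e3
  obtain ⟨C, hC⟩ := S.trace_const 0 c
  obtain ⟨C', hC'⟩ := S.trace_HH_const h2 p p' q hp hf hn hp1 hqp hg hq c e1 e2 e3
  have hCz : C = 0 := by
    rw [← hC t₁ ht1, ← e0, hl0]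
    congr 1
    funext y
    simp
  have hC'z : C' = 0 := by
    rw [← hC' t₁ ht1 ht2 ht3, ← e4, hl4]
    rfl
  apply hc0
  refine S.eq_zero_of_traces h2 p p' hp hpp hf hn c ?_ ?_
  · filter_upwards [S.B_discrete 0 (S.f 0 p)] with t ht
    rw [hC t ht, hCz]
  · filter_upwards [S.B_discrete 0 (S.f 0 p), fin_discrete L (S.f 0 p) (S.f 0 p),
      fin_discrete L (S.f 0 q) (S.f 0 p)] with t a b d
    rw [hC' t a b d, hC'z]

end Sys

end Pool.Agent.H36.NJ
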