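import Pool.Agent.H36.NJ.Sys

set_option autoImplicit false

/-! # Local facts and the identity theorem -/

namespace Pool.Agent.H36.NJ

open Complex Filter
open scoped Topology

/-- in a compact space a set without accumulation points is finite -/
lemma finite_of_isolated {X : Type} [TopologicalSpace X] [CompactSpace X] (A : Set X)
    (h : ∀ x, ∀ᶠ y in 𝓝[≠] x, y ∉ A) : A.Finite := by
  by_contra hA
  obtain ⟨x, hx⟩ := (Set.not_finite.1 hA : A.Infinite).exists_accPt_principal
  have h1 : ∃ᶠ y in 𝓝[≠] x, y ∈ A := accPt_iff_frequently_nhdsNE.1 hx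
  exact h1 (h x)

/-- a continuous function with values in the lattice is locally constant -/
lemma lattice_locally_const (L : PeriodPair) (F : ℂ → ℂ) (z₀ : ℂ) (hF : ContinuousAt F z₀)
    (h : ∀ᶠ z in 𝓝 z₀, F z ∈ L.lattice) : ∀ᶠ z in 𝓝 z₀, F z = F z₀ := by
  filter_upwards [hF.eventually (L.compl_lattice_sdiff_singleton_mem_nhds (F z₀)), h] with z h1 h2
  by_contra hne
  exact h1 ⟨h2, hne⟩

namespace Sys

variable {L : PeriodPair} {X : Type} [TopologicalSpace X] (S : Sys L X)

lemma tendsto_chart_nhds (x : X) : Tendsto (S.φ x) (𝓝 x) (𝓝 (S.φ x x)) :=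
  (S.φ x).continuousAt (S.mem_source x)

/-- pull-back of a punctured neighbourhood in the chart -/
lemma tendsto_chart (x : X) : Tendsto (S.φ x) (𝓝[≠] x) (𝓝[≠] (S.φ x x)) := by
  refine tendsto_nhdsWithin_iff.2
    ⟨(S.tendsto_chart_nhds x).mono_left nhdsWithin_le_nhds, ?_⟩
  have h1 : ∀ᶠ y in 𝓝[≠] x, y ∈ (S.φ x).source :=
    mem_nhdsWithin_of_mem_nhds ((S.φ x).open_source.mem_nhds (S.mem_source x))
  filter_upwards [h1, self_mem_nhdsWithin] with y h2 h3 h4
  exact h3 ((S.φ x).injOn h2 (S.mem_source x) h4)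

lemma tendsto_chart_symm (x : X) : Tendsto (S.φ x).symm (𝓝[≠] (S.φ x x)) (𝓝[≠] x) := by
  have ht : S.φ x x ∈ (S.φ x).target := (S.φ x).map_source (S.mem_source x)
  have hl : (S.φ x).symm (S.φ x x) = x := (S.φ x).left_inv (S.mem_source x)
  have hc : Tendsto (S.φ x).symm (𝓝 (S.φ x x)) (𝓝 x) := by
    have h0 := ((S.φ x).continuousAt_symm ht).tendsto
    rwa [hl] at h0
  refine tendsto_nhdsWithin_iff.2 ⟨hc.mono_left nhdsWithin_le_nhds, ?_⟩
  have h1 : ∀ᶠ z in 𝓝[≠] (S.φ x x), z ∈ (S.φ x).target :=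
    mem_nhdsWithin_of_mem_nhds ((S.φ x).open_target.mem_nhds ht)
  filter_upwards [h1, self_mem_nhdsWithin] with z h2 h3 h4
  apply h3
  change z = S.φ x x
  rw [← (S.φ x).right_inv h2]
  exact congrArg (S.φ x) h4

include S in
lemma neBot (x : X) : (𝓝[≠] x).NeBot :=
  (S.tendsto_chart_symm x).neBot

/-- the form `E c` in the chart at `x` -/
lemma E_local (c : Fin 6 → ℂ) (x : X) : ∀ᶠ y in 𝓝 x, ∃ κ : ℂ, κ ≠ 0 ∧
    (∀ i, S.e i y = κ * deriv (S.w x i) (S.φ x y)) ∧
    S.E c y = κ * deriv (fun z => ∑ i, c i * S.w x i z) (S.φ x y) := by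
  have h1 : ∀ᶠ y in 𝓝 x, ∀ i : Fin 6, AnalyticAt ℂ (S.w x i) (S.φ x y) := by
    refine Filter.eventually_all.2 fun i => ?_
    exact (S.tendsto_chart_nhds x).eventually (S.analytic x i).eventually_analyticAt
  filter_upwards [h1, S.form x] with y h2 h3
  obtain ⟨κ, hκ, h4⟩ := h3
  refine ⟨κ, hκ, h4, ?_⟩
  have h5 : deriv (fun z => ∑ i, c i * S.w x i z) (S.φ x y)
      = ∑ i, c i * deriv (S.w x i) (S.φ x y) := by
    rw [deriv_fun_sum fun i _ => (h2 i).differentiableAt.const_mul (c i)]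
    refine Finset.sum_congr rfl fun i _ => ?_
    rw [deriv_const_mul _ (h2 i).differentiableAt]
  rw [h5, Finset.mul_sum]
  unfold E
  refine Finset.sum_congr rfl fun i _ => ?_
  rw [h4 i]
  ring

/-- the point itself -/
lemma e_eq_zero_iff (j : Fin 6) (x : X) : S.e j x = 0 ↔ deriv (S.w x j) (S.φ x x) = 0 := by
  obtain ⟨κ, hκ, h⟩ := (S.form x).self_of_nhds
  rw [h j]
  constructor
  · intro h1
    rcases mul_eq_zero.1 h1 with h2 | h2
    · exact absurd h2 hκ
    · exact h2
  · intro h1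
    rw [h1, mul_zero]

/-- the forms in the form `E` -/
lemma E_single (j : Fin 6) (x : X) : S.E (Pi.single j 1) x = S.e j x := by
  unfold E
  rw [Finset.sum_eq_single j]
  · rw [Pi.single_eq_same, one_mul]
  · intro i _ hi
    rw [Pi.single_eq_of_ne hi, zero_mul]
  · intro h
    exact absurd (Finset.mem_univ j) h

lemma Loc_analytic_sum (c : Fin 6 → ℂ) (x : X) :
    AnalyticAt ℂ (fun z => ∑ i, c i * S.w x i z) (S.φ x x) := by
  refine Finset.analyticAt_fun_sum _ fun i _ => ?_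
  exact analyticAt_const.mul (S.analytic x i)

/-- the dichotomy -/
lemma Loc_dichotomy (c : Fin 6 → ℂ) (x : X) :
    (∀ᶠ y in 𝓝 x, S.E c y = 0) ∨ (∀ᶠ y in 𝓝[≠] x, S.E c y ≠ 0) := by
  have ha : AnalyticAt ℂ (deriv (fun z => ∑ i, c i * S.w x i z)) (S.φ x x) :=
    (S.Loc_analytic_sum c x).deriv
  rcases ha.eventually_eq_zero_or_eventually_ne_zero with h | h
  · left
    filter_upwards [S.E_local c x, (S.tendsto_chart_nhds x).eventually h] with y h1 h2
    obtain ⟨κ, _, _, h3⟩ := h1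
    rw [h3, h2, mul_zero]
  · right
    have h1 : ∀ᶠ y in 𝓝[≠] x, ∃ κ : ℂ, κ ≠ 0 ∧
        (∀ i, S.e i y = κ * deriv (S.w x i) (S.φ x y)) ∧
        S.E c y = κ * deriv (fun z => ∑ i, c i * S.w x i z) (S.φ x y) :=
      (S.E_local c x).filter_mono nhdsWithin_le_nhds
    filter_upwards [h1, (S.tendsto_chart x).eventually h] with y h2 h3
    obtain ⟨κ, hκ, _, h4⟩ := h2
    rw [h4]
    exact mul_ne_zero hκ h3

/-- identity theorem: a nonzero form has isolated zeros -/
theorem E_ne_zero [ConnectedSpace X] (c : Fin 6 → ℂ) (hc : c ≠ 0) (x : X) :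
    ∀ᶠ y in 𝓝[≠] x, S.E c y ≠ 0 := by
  set Z : Set X := {x | ∀ᶠ y in 𝓝 x, S.E c y = 0} with hZ
  have hopen : IsOpen Z := isOpen_iff_mem_nhds.2 fun x hx => hx.eventually_nhds
  have hclosed : IsClosed Z := by
    rw [← isOpen_compl_iff, isOpen_iff_mem_nhds]
    intro x hx
    rcases S.Loc_dichotomy c x with h | h
    · exact absurd h hx
    · rw [eventually_nhdsWithin_iff] at h
      have h1 : ∀ᶠ y in 𝓝 x, y ∈ Zᶜ := by
        filter_upwards [h] with y hy hyZ
        by_cases hxy : y = x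
        · rw [hxy] at hyZ
          exact hx hyZ
        · exact hy hxy hyZ.self_of_nhds
      exact h1
  rcases isClopen_iff.1 ⟨hclosed, hopen⟩ with h | h
  · rcases S.Loc_dichotomy c x with h1 | h1
    · have : x ∈ Z := h1
      rw [h] at this
      exact absurd this (Set.notMem_empty x)
    · exact h1
  · obtain ⟨y, hy⟩ := S.indep c hc
    have h1 : y ∈ Z := by rw [h]; exact Set.mem_univ y
    exact absurd h1.self_of_nhds hy

theorem e_ne_zero [ConnectedSpace X] (j : Fin 6) (x : X) : ∀ᶠ y in 𝓝[≠] x, S.e j y ≠ 0 := by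
  have h : (Pi.single j 1 : Fin 6 → ℂ) ≠ 0 := by
    intro h0
    have := congrFun h0 j
    rw [Pi.single_eq_same] at this
    exact one_ne_zero this
  filter_upwards [S.E_ne_zero (Pi.single j 1) h x] with y hy
  rwa [S.E_single] at hy

theorem E_finite [ConnectedSpace X] [CompactSpace X] (c : Fin 6 → ℂ) (hc : c ≠ 0) :
    {x | S.E c x = 0}.Finite :=
  finite_of_isolated _ fun x => S.E_ne_zero c hc x

theorem e_finite [ConnectedSpace X] [CompactSpace X] (j : Fin 6) : {x | S.e j x = 0}.Finite :=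
  finite_of_isolated _ fun x => S.e_ne_zero j x

/-- the lift of `f j` is not constant near any point -/
theorem mult_ne_top [ConnectedSpace X] (j : Fin 6) (x : X) : S.mult j x ≠ ⊤ := by
  intro h
  unfold mult at h
  rw [analyticOrderAt_eq_top] at h
  have h1 : ∀ᶠ z in 𝓝 (S.φ x x), deriv (S.w x j) z = 0 := by
    filter_upwards [h.eventually_nhds] with z hz
    have h2 : S.w x j =ᶠ[𝓝 z] fun _ => S.w x j (S.φ x x) := by
      filter_upwards [hz] with u hu
      exact sub_eq_zero.1 hu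
    rw [h2.deriv_eq, deriv_const]
  have h2 : ∀ᶠ y in 𝓝 x, S.e j y = 0 := by
    filter_upwards [S.form x, (S.tendsto_chart_nhds x).eventually h1] with y h3 h4
    obtain ⟨κ, _, h5⟩ := h3
    rw [h5 j, h4, mul_zero]
  have h3 : ∀ᶠ y in 𝓝[≠] x, False := by
    filter_upwards [h2.filter_mono nhdsWithin_le_nhds, S.e_ne_zero j x] with y h4 h5
    exact h5 h4
  have := S.neBot x
  exact h3.exists.elim fun _ h => h

/-- holomorphic functions are closed under the operations used -/
lemma Hol.mul {H K : X → ℂ} {x : X} (hH : S.Hol H x) (hK : S.Hol K x) :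
    S.Hol (fun y => H y * K y) x := by
  obtain ⟨G, hG, h1⟩ := hH
  obtain ⟨G', hG', h2⟩ := hK
  refine ⟨fun z => G z * G' z, hG.mul hG', ?_⟩
  filter_upwards [h1, h2] with y h3 h4
  rw [h3, h4]

lemma Hol.add {H K : X → ℂ} {x : X} (hH : S.Hol H x) (hK : S.Hol K x) :
    S.Hol (fun y => H y + K y) x := by
  obtain ⟨G, hG, h1⟩ := hH
  obtain ⟨G', hG', h2⟩ := hK
  refine ⟨fun z => G z + G' z, hG.add hG', ?_⟩
  filter_upwards [h1, h2] with y h3 h4
  rw [h3, h4]

lemma hol_const (a : ℂ) (x : X) : S.Hol (fun _ => a) x :=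
  ⟨fun _ => a, analyticAt_const, Filter.Eventually.of_forall fun _ => rfl⟩

lemma Hol.continuousAt {H : X → ℂ} {x : X} (hH : S.Hol H x) : ContinuousAt H x := by
  obtain ⟨G, hG, h1⟩ := hH
  have h2 : ContinuousAt (fun y => G (S.φ x y)) x :=
    ContinuousAt.comp (f := S.φ x) (g := G) hG.continuousAt (S.tendsto_chart_nhds x)
  exact h2.congr (h1.mono fun y hy => hy.symm)

/-- the composition of `f j` with a periodic function `k` analytic at `f j x - a` -/
lemma hol_comp (j : Fin 6) (x : X) (a : ℂ) (k : ℂ → ℂ)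
    (hper : ∀ z, ∀ l ∈ L.lattice, k (z + l) = k z) (hk : AnalyticAt ℂ k (S.f j x - a)) :
    S.Hol (fun y => k (S.f j y - a)) x := by
  have hl : S.f j x - S.w x j (S.φ x x) ∈ L.lattice := (S.lift x j).self_of_nhds
  set l : ℂ := S.f j x - S.w x j (S.φ x x) with hld
  have hk1 : AnalyticAt ℂ k (S.w x j (S.φ x x) - a) := by
    have h1 : AnalyticAt ℂ (fun z => k (z + l)) (S.w x j (S.φ x x) - a) := by
      refine AnalyticAt.fun_comp ?_ (analyticAt_id.add analyticAt_const)
      have h2 : id (S.w x j (S.φ x x) - a) + l = S.f j x - a := by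
        change S.w x j (S.φ x x) - a + l = S.f j x - a
        rw [hld]
        ring
      change AnalyticAt ℂ k (id (S.w x j (S.φ x x) - a) + l)
      rw [h2]
      exact hk
    have h3 : (fun z => k (z + l)) = k := by
      funext z
      exact hper z l hl
    rwa [h3] at h1
  refine ⟨fun z => k (S.w x j z - a), ?_, ?_⟩
  · exact AnalyticAt.fun_comp hk1 ((S.analytic x j).sub analyticAt_const)
  · filter_upwards [S.lift x j] with y hy
    have h4 : S.f j y - a = (S.w x j (S.φ x y) - a) + (S.f j y - S.w x j (S.φ x y)) := by ring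
    rw [h4, hper _ _ hy]

/-- the quotient of two forms is holomorphic off the zeros of the denominator -/
theorem hol_quot (c : Fin 6 → ℂ) (j : Fin 6) (x : X) (h : S.e j x ≠ 0) :
    S.Hol (fun y => S.E c y / S.e j y) x := by
  have hd : deriv (S.w x j) (S.φ x x) ≠ 0 := fun h0 => h ((S.e_eq_zero_iff j x).2 h0)
  refine ⟨fun z => deriv (fun z => ∑ i, c i * S.w x i z) z / deriv (S.w x j) z,
    (S.Loc_analytic_sum c x).deriv.div (S.analytic x j).deriv hd, ?_⟩
  filter_upwards [S.E_local c x] with y hy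
  obtain ⟨κ, hκ, h1, h2⟩ := hy
  rw [h1 j, h2, mul_div_mul_left _ _ hκ]

end Sys

end Pool.Agent.H36.NJ
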