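import Pool.Agent.H36.NJ.Man
import Pool.Agent.H36.NJ.Fin

set_option autoImplicit false

/-! # `A_τ₀` is not a Jacobian -/

namespace Pool.Agent.H36.G00

open Complex Matrix Filter Pool.Agent.H36.NJ
open scoped Topology Manifold ContDiff

/-- the section `Θ[e*]` does not vanish identically on the curve -/
lemma exists_section_ne {X : Type} [TopologicalSpace X] [ConnectedSpace X]
    (u : X → Fin 6 → ℂ) (S : Sys Lom X) (hf : ∀ i x, S.f i x = 2 * u x i) :
    ∃ x, Theta (fun _ => 1) tau0 (u x) ≠ 0 := by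
  obtain ⟨x₀⟩ := (inferInstance : Nonempty X)
  have := S.neBot x₀
  have h1 : ∀ i, ∀ᶠ y in 𝓝[≠] x₀, J 0 1 1 (S.f i y) ≠ 0 := by
    intro i
    have h2 := (S.tendsto_chart x₀).eventually
      (J_ne (S.w x₀ i) (S.φ x₀ x₀) (S.analytic x₀ i) (S.mult_ne_top i x₀))
    filter_upwards [h2, nhdsWithin_le_nhds (S.lift x₀ i)] with y h3 h4
    obtain ⟨a, ha, haJ⟩ := J_add (S.w x₀ i (S.φ x₀ y)) _ h4
    have h5 : S.w x₀ i (S.φ x₀ y) + (S.f i y - S.w x₀ i (S.φ x₀ y)) = S.f i y := by ring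
    rw [h5] at haJ
    rw [haJ]
    exact mul_ne_zero ha h3
  obtain ⟨y, hy⟩ := (Filter.eventually_all.2 h1).exists
  refine ⟨y, ?_⟩
  rw [Theta_one]
  refine mul_ne_zero (ph_ne_zero _) (Finset.prod_ne_zero_iff.2 (fun i _ => ?_))
  rw [← hf]
  exact hy i

/-- the degree condition from the section `Θ[e*]` -/
theorem degLe_of_section {X : Type} [TopologicalSpace X] [ConnectedSpace X] [ChartedSpace ℂ X]
    [IsManifold 𝓘(ℂ) ω X] (u : X → Fin 6 → ℂ) (S : Sys Lom X) (V : X → ℂ → Fin 6 → ℂ)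
    (hV : ∀ x, IsLift tau0 u x (V x)) (hw : ∀ x i, S.w x i = fun z => 2 * V x z i)
    (hf : ∀ i x, S.f i x = 2 * u x i) (hφ : ∀ x, S.φ x = chartAt ℂ x)
    (deg : ∀ f, IsSection tau0 f → (∃ x, f (u x) ≠ 0) →
      ∀ (s : Finset X) (v : X → ℂ → Fin 6 → ℂ), (∀ x ∈ s, IsLift tau0 u x (v x)) →
        ∑ x ∈ s, analyticOrderAt (fun z => f (v x z)) (chartAt ℂ x x) ≤ 2 * (6 : ℕ)) :
    S.DegLe := by
  intro s
  have h1 := deg (Theta (fun _ => 1) tau0) (Theta_isSection tau0 tau0_siegel _)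
    (exists_section_ne u S hf) s V (fun x _ => hV x)
  have h12 : (2 * (6 : ℕ) : ℕ∞) = 12 := by norm_num
  rw [h12] at h1
  refine le_trans (Finset.sum_le_sum (fun x _ => ?_)) h1
  have h2 : (fun z => Theta (fun _ => 1) tau0 (V x z)) =
      fun z => ph (fun _ => 1) * ∏ i, J 0 1 1 (S.w x i z) := by
    funext z
    rw [Theta_one]
    congr 1
    refine Finset.prod_congr rfl (fun i _ => ?_)
    rw [hw]
  rw [h2, ← hφ, prod_order (S.w x) (S.φ x x) (fun i => S.analytic x i) _ (ph_ne_zero _)]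
  refine Finset.sum_le_sum (fun i _ => ?_)
  by_cases hx : x ∈ S.fibre i 0
  · rw [Set.indicator_of_mem hx]
    refine J_order (S.w x i) (S.φ x x) (S.analytic x i) ?_
    have h3 : S.f i x - S.w x i (S.φ x x) ∈ Lom.lattice := (S.lift x i).self_of_nhds
    have h4 : S.f i x - 0 ∈ Lom.lattice := hx
    have h5 := Lom.lattice.sub_mem h4 h3
    have h6 : S.f i x - 0 - (S.f i x - S.w x i (S.φ x x)) = S.w x i (S.φ x x) := by ring
    rwa [h6] at h5
  · rw [Set.indicator_of_notMem hx]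
    exact bot_le

theorem not_jacobianCurve_tau0 : ¬ JacobianCurve tau0 := by
  rintro ⟨X, i1, i2, i3, i4, i5, i6, u, hol, ind, deg⟩
  obtain ⟨S, V, hV, hw, hf, hφ⟩ := exists_sys u hol ind
  exact S.no_sys (degLe_of_section u S V hV hw hf hφ (fun f h1 h2 s v hv => deg f h1 h2 s v hv))

end Pool.Agent.H36.G00
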