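import Pool.Agent.H36.NJ.Sec
import Pool.Agent.H36.NJ.Loc

set_option autoImplicit false

/-! # From a curve in `A_τ` to the abstract data -/

namespace Pool.Agent.H36.G00

open Complex Matrix Filter Pool.Agent.H36.NJ
open scoped Topology Manifold ContDiff

section

variable {X : Type} [TopologicalSpace X] [ChartedSpace ℂ X] [IsManifold 𝓘(ℂ) ω X]

private lemma Man_analytic (x y p : X) (hx : p ∈ (chartAt ℂ x).source)
    (hy : p ∈ (chartAt ℂ y).source) :
    AnalyticAt ℂ (fun z => chartAt ℂ x ((chartAt ℂ y).symm z)) (chartAt ℂ y p) := by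
  have h := contDiffWithinAt_ext_coord_change (I := 𝓘(ℂ)) (n := ω) x y (y := chartAt ℂ y p)
    (by simp only [mfld_simps]; exact ⟨(chartAt ℂ y).map_source hy, by
      rw [(chartAt ℂ y).left_inv hy]; exact hx⟩)
  rw [ModelWithCorners.range_eq_univ, contDiffWithinAt_univ] at h
  exact h.analyticAt

/-- the change of charts is holomorphic with nonzero derivative -/
theorem chart_transition (x y : X) (hy : y ∈ (chartAt ℂ x).source) :
    AnalyticAt ℂ (fun z => chartAt ℂ x ((chartAt ℂ y).symm z)) (chartAt ℂ y y) ∧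
      deriv (fun z => chartAt ℂ x ((chartAt ℂ y).symm z)) (chartAt ℂ y y) ≠ 0 := by
  have h1 := Man_analytic x y y hy (mem_chart_source ℂ y)
  have h2 := Man_analytic y x y (mem_chart_source ℂ y) hy
  refine ⟨h1, fun h0 => ?_⟩
  have hT : (fun z => chartAt ℂ x ((chartAt ℂ y).symm z)) (chartAt ℂ y y) = chartAt ℂ x y := by
    show chartAt ℂ x ((chartAt ℂ y).symm (chartAt ℂ y y)) = chartAt ℂ x y
    rw [(chartAt ℂ y).left_inv (mem_chart_source ℂ y)]
  have h2' : HasDerivAt (fun z => chartAt ℂ y ((chartAt ℂ x).symm z))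
      (deriv (fun z => chartAt ℂ y ((chartAt ℂ x).symm z)) (chartAt ℂ x y))
      ((fun z => chartAt ℂ x ((chartAt ℂ y).symm z)) (chartAt ℂ y y)) := by
    rw [hT]
    exact h2.differentiableAt.hasDerivAt
  have h3 := h2'.comp (chartAt ℂ y y) h1.differentiableAt.hasDerivAt
  have h4 : ((fun z => chartAt ℂ y ((chartAt ℂ x).symm z)) ∘
      fun z => chartAt ℂ x ((chartAt ℂ y).symm z)) =ᶠ[𝓝 (chartAt ℂ y y)] fun z => z := by
    have hs : ∀ᶠ z in 𝓝 (chartAt ℂ y y), z ∈ (chartAt ℂ y).target :=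
      (chartAt ℂ y).open_target.mem_nhds ((chartAt ℂ y).map_source (mem_chart_source ℂ y))
    have hs' : ∀ᶠ z in 𝓝 (chartAt ℂ y y), (chartAt ℂ y).symm z ∈ (chartAt ℂ x).source := by
      have hc := (chartAt ℂ y).continuousAt_symm
        ((chartAt ℂ y).map_source (mem_chart_source ℂ y))
      apply hc.eventually_mem
      rw [(chartAt ℂ y).left_inv (mem_chart_source ℂ y)]
      exact (chartAt ℂ x).open_source.mem_nhds hy
    filter_upwards [hs, hs'] with z hz hz'
    show chartAt ℂ y ((chartAt ℂ x).symm (chartAt ℂ x ((chartAt ℂ y).symm z))) = z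
    rw [(chartAt ℂ x).left_inv hz', (chartAt ℂ y).right_inv hz]
  have h5 := (h3.congr_of_eventuallyEq h4.symm).unique (hasDerivAt_id (chartAt ℂ y y))
  rw [h0, mul_zero] at h5
  exact zero_ne_one h5

private lemma Man_sub_mem (a b : Fin 6 → ℂ) (ha : a ∈ lattice tau0) (hb : b ∈ lattice tau0) :
    a - b ∈ lattice tau0 := by
  obtain ⟨m, n, rfl⟩ := ha
  obtain ⟨m', n', rfl⟩ := hb
  refine ⟨m - m', n - n', ?_⟩
  unfold pt
  have h1 : (fun i => (((m - m') i : ℤ) : ℂ)) = (fun i => (m i : ℂ)) - fun i => (m' i : ℂ) := by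
    funext i; simp
  have h2 : (fun i => (((n - n') i : ℤ) : ℂ)) = (fun i => (n i : ℂ)) - fun i => (n' i : ℂ) := by
    funext i; simp
  rw [h1, h2, Matrix.mulVec_sub]
  abel

private lemma Man_comp_analytic (v : ℂ → Fin 6 → ℂ) (z₀ : ℂ) (hv : AnalyticAt ℂ v z₀) (i : Fin 6) :
    AnalyticAt ℂ (fun z => 2 * v z i) z₀ :=
  analyticAt_const.mul ((analyticAt_pi_iff.1 hv) i)

/-- comparison of the derivatives of two local lifts -/
private lemma Man_compare (u : X → Fin 6 → ℂ) (x y : X) (hy : y ∈ (chartAt ℂ x).source)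
    (v g : ℂ → Fin 6 → ℂ) (hv : IsLift tau0 u y v) (hg : AnalyticAt ℂ g (chartAt ℂ x y))
    (hg' : ∀ᶠ p in 𝓝 y, u p - g (chartAt ℂ x p) ∈ lattice tau0) (i : Fin 6) :
    deriv (fun z => 2 * v z i) (chartAt ℂ y y) =
      deriv (fun z => chartAt ℂ x ((chartAt ℂ y).symm z)) (chartAt ℂ y y) *
        deriv (fun z => 2 * g z i) (chartAt ℂ x y) := by
  obtain ⟨hT, -⟩ := chart_transition x y hy
  have hTz : (fun z => chartAt ℂ x ((chartAt ℂ y).symm z)) (chartAt ℂ y y) = chartAt ℂ x y := by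
    show chartAt ℂ x ((chartAt ℂ y).symm (chartAt ℂ y y)) = chartAt ℂ x y
    rw [(chartAt ℂ y).left_inv (mem_chart_source ℂ y)]
  have hvi := Man_comp_analytic v _ hv.1 i
  have hgi : AnalyticAt ℂ (fun z => 2 * g z i)
      ((fun z => chartAt ℂ x ((chartAt ℂ y).symm z)) (chartAt ℂ y y)) := by
    rw [hTz]
    exact Man_comp_analytic g _ hg i
  have hcomp : AnalyticAt ℂ (fun z => 2 * g (chartAt ℂ x ((chartAt ℂ y).symm z)) i)
      (chartAt ℂ y y) :=
    AnalyticAt.comp (g := fun z => 2 * g z i)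
      (f := fun z => chartAt ℂ x ((chartAt ℂ y).symm z)) hgi hT
  have hmem : ∀ᶠ z in 𝓝 (chartAt ℂ y y),
      2 * v z i - 2 * g (chartAt ℂ x ((chartAt ℂ y).symm z)) i ∈ Lom.lattice := by
    have ht : Tendsto (chartAt ℂ y).symm (𝓝 (chartAt ℂ y y)) (𝓝 y) := by
      have hc := (chartAt ℂ y).continuousAt_symm
        ((chartAt ℂ y).map_source (mem_chart_source ℂ y))
      have hc' : Tendsto (chartAt ℂ y).symm (𝓝 (chartAt ℂ y y))
        (𝓝 ((chartAt ℂ y).symm (chartAt ℂ y y))) := hc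
      rwa [(chartAt ℂ y).left_inv (mem_chart_source ℂ y)] at hc'
    have hs : ∀ᶠ z in 𝓝 (chartAt ℂ y y), z ∈ (chartAt ℂ y).target :=
      (chartAt ℂ y).open_target.mem_nhds ((chartAt ℂ y).map_source (mem_chart_source ℂ y))
    filter_upwards [ht.eventually hg', ht.eventually hv.2, hs] with z hz1 hz2 hz3
    rw [(chartAt ℂ y).right_inv hz3] at hz2
    have h3 := two_mul_mem _ (Man_sub_mem _ _ hz1 hz2) i
    have e : 2 * (u ((chartAt ℂ y).symm z) - g (chartAt ℂ x ((chartAt ℂ y).symm z)) -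
        (u ((chartAt ℂ y).symm z) - v z)) i =
        2 * v z i - 2 * g (chartAt ℂ x ((chartAt ℂ y).symm z)) i := by
      simp only [Pi.sub_apply]
      ring
    rwa [e] at h3
  have hconst := lattice_locally_const Lom
    (fun z => 2 * v z i - 2 * g (chartAt ℂ x ((chartAt ℂ y).symm z)) i) (chartAt ℂ y y)
    (hvi.continuousAt.sub hcomp.continuousAt) hmem
  have hd : deriv (fun z => 2 * v z i - 2 * g (chartAt ℂ x ((chartAt ℂ y).symm z)) i)
      (chartAt ℂ y y) = 0 := by
    rw [Filter.EventuallyEq.deriv_eq hconst]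
    exact deriv_const _ _
  rw [deriv_fun_sub hvi.differentiableAt hcomp.differentiableAt, sub_eq_zero] at hd
  rw [hd]
  have h6 := (hgi.differentiableAt.hasDerivAt).comp (chartAt ℂ y y)
    hT.differentiableAt.hasDerivAt
  have h7 := h6.deriv
  rw [hTz] at h7
  rw [mul_comm]
  exact h7

/-- the derivatives of two lifts at nearby points are proportional -/
theorem lift_transition (u : X → Fin 6 → ℂ) (V : X → ℂ → Fin 6 → ℂ)
    (hV : ∀ x, IsLift tau0 u x (V x)) (x : X) :
    ∀ᶠ y in 𝓝 x, ∃ κ : ℂ, κ ≠ 0 ∧ ∀ i,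
      deriv (fun z => 2 * V y z i) (chartAt ℂ y y) =
        κ * deriv (fun z => 2 * V x z i) (chartAt ℂ x y) := by
  have h1 : ∀ᶠ y in 𝓝 x, y ∈ (chartAt ℂ x).source := chart_source_mem_nhds ℂ x
  have h2 : ∀ᶠ y in 𝓝 x, AnalyticAt ℂ (V x) (chartAt ℂ x y) :=
    ((chartAt ℂ x).continuousAt (mem_chart_source ℂ x)).eventually (hV x).1.eventually_analyticAt
  have h3 := (hV x).2.eventually_nhds
  filter_upwards [h1, h2, h3] with y hy1 hy2 hy3
  exact ⟨_, (chart_transition x y hy1).2, fun i => Man_compare u x y hy1 (V y) (V x) (hV y) hy2 hy3 i⟩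

theorem exists_sys (u : X → Fin 6 → ℂ) (hol : ∀ x, ∃ v, IsLift tau0 u x v)
    (ind : ∀ c : Fin 6 → ℂ, c ≠ 0 → ∃ x v, IsLift tau0 u x v ∧
      deriv (fun z => ∑ i, c i * v z i) (chartAt ℂ x x) ≠ 0) :
    ∃ (S : Sys Lom X) (V : X → ℂ → Fin 6 → ℂ), (∀ x, IsLift tau0 u x (V x)) ∧
      (∀ x i, S.w x i = fun z => 2 * V x z i) ∧ (∀ i x, S.f i x = 2 * u x i) ∧
      (∀ x, S.φ x = chartAt ℂ x) := by
  choose V hV using hol
  refine ⟨{ f := fun i x => 2 * u x i
            e := fun i x => deriv (fun z => 2 * V x z i) (chartAt ℂ x x)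
            φ := fun x => chartAt ℂ x
            w := fun x i z => 2 * V x z i
            mem_source := fun x => mem_chart_source ℂ x
            analytic := fun x i => Man_comp_analytic (V x) _ (hV x).1 i
            lift := fun x i => ?_
            form := fun x => lift_transition u V hV x
            indep := fun c hc => ?_ }, V, hV, fun x i => rfl, fun i x => rfl, fun x => rfl⟩
  · filter_upwards [(hV x).2] with y hy
    have h := two_mul_mem _ hy i
    have e : 2 * (u y - V x (chartAt ℂ x y)) i = 2 * u y i - 2 * V x (chartAt ℂ x y) i := by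
      simp only [Pi.sub_apply]
      ring
    rwa [e] at h
  · obtain ⟨x, v, hv, hd⟩ := ind c hc
    refine ⟨x, fun h0 => hd ?_⟩
    have hx := mem_chart_source ℂ x
    have hT : deriv (fun z => chartAt ℂ x ((chartAt ℂ x).symm z)) (chartAt ℂ x x) = 1 := by
      have hs : (fun z => chartAt ℂ x ((chartAt ℂ x).symm z)) =ᶠ[𝓝 (chartAt ℂ x x)] fun z => z := by
        filter_upwards [(chartAt ℂ x).open_target.mem_nhds ((chartAt ℂ x).map_source hx)] with z hz
        exact (chartAt ℂ x).right_inv hz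
      rw [hs.deriv_eq]
      exact deriv_id _
    have key : ∀ i, deriv (fun z => v z i) (chartAt ℂ x x) =
        deriv (fun z => 2 * V x z i) (chartAt ℂ x x) / 2 := by
      intro i
      have h1 := Man_compare u x x hx v (V x) hv (hV x).1 (hV x).2 i
      rw [hT, one_mul] at h1
      rw [← h1, deriv_const_mul _ ((analyticAt_pi_iff.1 hv.1) i).differentiableAt]
      ring
    have h2 : deriv (fun z => ∑ i, c i * v z i) (chartAt ℂ x x) =
        ∑ i, c i * deriv (fun z => v z i) (chartAt ℂ x x) := by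
      refine (HasDerivAt.fun_sum fun i _ => HasDerivAt.const_mul (c i) ?_).deriv
      exact ((analyticAt_pi_iff.1 hv.1) i).differentiableAt.hasDerivAt
    rw [h2]
    have h3 : ∑ i, c i * deriv (fun z => v z i) (chartAt ℂ x x) =
        (∑ i, c i * deriv (fun z => 2 * V x z i) (chartAt ℂ x x)) / 2 := by
      rw [Finset.sum_div]
      refine Finset.sum_congr rfl fun i _ => ?_
      rw [key i]
      ring
    rw [h3, h0, zero_div]

end

end Pool.Agent.H36.G00
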