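import Pool.Agent.H36.NJ.Fib
import Pool.Agent.H36.NJ.Cnt

set_option autoImplicit false

/-! # The number of points of a fibre and the multiplicities -/

namespace Pool.Agent.H36.NJ

open Complex Filter
open scoped Topology

namespace Sys

variable {L : PeriodPair} {X : Type} [TopologicalSpace X] (S : Sys L X)

/-- near `x₀` the fibre over `t` has at most `mult` points -/
theorem ncard_near_le (j : Fin 6) (x₀ : X) (t₀ : ℂ) (h : x₀ ∈ S.fibre j t₀) (m : ℕ)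
    (hm : S.mult j x₀ = m) :
    ∃ U ∈ 𝓝 x₀, ∀ᶠ t in 𝓝 t₀, ∀ s : Finset X, (∀ x ∈ s, x ∈ U ∧ x ∈ S.fibre j t) → s.card ≤ m := by
  classical
  obtain ⟨V, hV, hVc⟩ := card_le_order (S.w x₀ j) (S.φ x₀ x₀) (S.analytic x₀ j) m hm
  obtain ⟨P, hP, Q, hQ, hPQ⟩ := Filter.eventually_prod_iff.1 (S.mem_fibre_iff j x₀ t₀ h)
  have h1 : ∀ᶠ x in 𝓝 x₀, S.φ x₀ x ∈ V :=
    ((S.φ x₀).continuousAt (S.mem_source x₀)).eventually_mem hV
  have h2 : ∀ᶠ x in 𝓝 x₀, x ∈ (S.φ x₀).source :=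
    (S.φ x₀).open_source.mem_nhds (S.mem_source x₀)
  refine ⟨_, hP.and (h1.and h2), ?_⟩
  filter_upwards [hQ] with t ht s hs
  have hinj : Set.InjOn (S.φ x₀) (s : Set X) := fun a ha b hb hab =>
    (S.φ x₀).injOn (hs a ha).1.2.2 (hs b hb).1.2.2 hab
  rw [← Finset.card_image_of_injOn hinj]
  refine hVc (S.w x₀ j (S.φ x₀ x₀) + (t - t₀)) _ (fun z hz => ?_)
  obtain ⟨x, hx, rfl⟩ := Finset.mem_image.1 hz
  refine ⟨(hs x hx).1.2.1, ?_⟩
  have := (hPQ (hs x hx).1.1 ht).1 (hs x hx).2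
  simp only at this
  linear_combination this

/-- the fibre over a value near `t₀` has at most `∑ mult` points -/
theorem ncard_le_mult [CompactSpace X] [ConnectedSpace X] (j : Fin 6) (t₀ : ℂ) :
    ∀ᶠ t in 𝓝 t₀, ((S.fibre j t).ncard : ℕ∞) ≤
      ∑ x ∈ (S.fibre_finite j t₀).toFinset, S.mult j x := by
  classical
  have hm : ∀ x : X, ∃ m : ℕ, S.mult j x = m := fun x => by
    obtain ⟨m, hm⟩ := ENat.ne_top_iff_exists.1 (S.mult_ne_top j x)
    exact ⟨m, hm.symm⟩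
  choose m hm using hm
  have hU : ∀ x : X, ∃ U : Set X, x ∈ S.fibre j t₀ → U ∈ 𝓝 x ∧ ∀ᶠ t in 𝓝 t₀,
      ∀ s : Finset X, (∀ y ∈ s, y ∈ U ∧ y ∈ S.fibre j t) → s.card ≤ m x := fun x => by
    by_cases hx : x ∈ S.fibre j t₀
    · obtain ⟨U, h1, h2⟩ := S.ncard_near_le j x t₀ hx (m x) (hm x)
      exact ⟨U, fun _ => ⟨h1, h2⟩⟩
    · exact ⟨∅, fun h => absurd h hx⟩
  choose U hU using hU
  have hnear := S.fibre_near j t₀ (⋃ x ∈ S.fibre j t₀, U x) (fun x hx =>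
    mem_of_superset (hU x hx).1 (Set.subset_biUnion_of_mem hx))
  have hall : ∀ᶠ t in 𝓝 t₀, ∀ x ∈ S.fibre j t₀,
      ∀ s : Finset X, (∀ y ∈ s, y ∈ U x ∧ y ∈ S.fibre j t) → s.card ≤ m x :=
    (Filter.eventually_all_finite (S.fibre_finite j t₀)).2 (fun x hx => (hU x hx).2)
  filter_upwards [hnear, hall] with t h1 h2
  have h3 : (S.fibre j t).ncard = (S.fibre_finite j t).toFinset.card :=
    Set.ncard_eq_toFinset_card _ _
  have h4 : (S.fibre_finite j t).toFinset ⊆ (S.fibre_finite j t₀).toFinset.biUnion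
      (fun x => (S.fibre_finite j t).toFinset.filter (· ∈ U x)) := by
    intro y hy
    have hy' : y ∈ S.fibre j t := by simpa using hy
    obtain ⟨x, hx, hyx⟩ := Set.mem_iUnion₂.1 (h1 hy')
    exact Finset.mem_biUnion.2 ⟨x, by simpa using hx, Finset.mem_filter.2 ⟨hy, hyx⟩⟩
  have h5 : (S.fibre j t).ncard ≤ ∑ x ∈ (S.fibre_finite j t₀).toFinset, m x := by
    rw [h3]
    refine (Finset.card_le_card h4).trans (Finset.card_biUnion_le.trans ?_)
    refine Finset.sum_le_sum (fun x hx => h2 x (by simpa using hx) _ (fun y hy => ?_))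
    obtain ⟨ha, hb⟩ := Finset.mem_filter.1 hy
    exact ⟨hb, by simpa using ha⟩
  calc ((S.fibre j t).ncard : ℕ∞) ≤ ((∑ x ∈ (S.fibre_finite j t₀).toFinset, m x : ℕ) : ℕ∞) := by
        exact_mod_cast h5
    _ = ∑ x ∈ (S.fibre_finite j t₀).toFinset, S.mult j x := by
        rw [Nat.cast_sum]
        exact Finset.sum_congr rfl (fun x _ => (hm x).symm)

end Sys

end Pool.Agent.H36.NJ
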