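import Pool.Agent.H36.NJ.Two

set_option autoImplicit false

/-! # The choice of the points `p`, `p'`, `q` -/

namespace Pool.Agent.H36.NJ

open Complex Filter
open scoped Topology

namespace Sys

variable {L : PeriodPair} {X : Type} [TopologicalSpace X] [CompactSpace X] [T2Space X]
  [ConnectedSpace X] (S : Sys L X)

omit [CompactSpace X] [T2Space X] [ConnectedSpace X] in
private lemma Pts_mem_self (j : Fin 6) (x : X) : x ∈ S.fibre j (S.f j x) := by
  show S.f j x - S.f j x ∈ L.lattice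
  rw [sub_self]
  exact L.lattice.zero_mem

omit [CompactSpace X] [T2Space X] [ConnectedSpace X] in
private lemma Pts_fibre_eq (j : Fin 6) (x : X) (t : ℂ) (h : x ∈ S.fibre j t) :
    S.fibre j (S.f j x) = S.fibre j t := by
  have h1 : S.f j x - t ∈ L.lattice := h
  have h2 := S.fibre_add j t _ h1
  rw [add_sub_cancel] at h2
  exact h2

omit [CompactSpace X] [T2Space X] [ConnectedSpace X] in
private lemma Pts_not_mem_B (j : Fin 6) (x : X) (t : ℂ) (h : x ∈ S.fibre j t) (ht : t ∉ S.B j) :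
    S.f j x ∉ S.B j := by
  rintro ⟨y, hy, hy'⟩
  rw [S.Pts_fibre_eq j x t h] at hy
  exact ht ⟨y, hy, hy'⟩

/-- the other point of a regular fibre -/
private lemma Pts_other (h2 : ∀ j, ∀ t ∉ S.B j, (S.fibre j t).ncard = 2) (j : Fin 6) (x : X)
    (hx : S.f j x ∉ S.B j) : ∃ x' : X, x' ≠ x ∧ S.fibre j (S.f j x) = {x, x'} := by
  obtain ⟨a, b, hab, h⟩ := Set.ncard_eq_two.1 (h2 j _ hx)
  have hm := S.Pts_mem_self j x
  rw [h] at hm
  rcases hm with rfl | hm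
  · exact ⟨b, hab.symm, h⟩
  · rw [Set.mem_singleton_iff] at hm
    subst hm
    exact ⟨a, hab, by rw [h, Set.pair_comm]⟩

/-- the two sections near a regular value -/
private lemma Pts_near (x x' : X) (t₀ : ℂ) (ht₀ : t₀ ∉ S.B 0) (hf : S.fibre 0 t₀ = {x, x'})
    (hxx : x' ≠ x) : ∃ s s' : ℂ → X, s t₀ = x ∧ s' t₀ = x' ∧ ContinuousAt s t₀ ∧
      ContinuousAt s' t₀ ∧ AnalyticAt ℂ (fun t => S.φ x (s t)) t₀ ∧
      AnalyticAt ℂ (fun t => S.φ x' (s' t)) t₀ ∧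
      ∀ᶠ t in 𝓝 t₀, S.fibre 0 t = {s t, s' t} ∧ s' t ≠ s t := by
  obtain ⟨s, hs1, hs2⟩ := S.fibre_sections 0 t₀ ht₀
  have hx : x ∈ S.fibre 0 t₀ := by rw [hf]; exact Set.mem_insert _ _
  have hx' : x' ∈ S.fibre 0 t₀ := by rw [hf]; exact Set.mem_insert_of_mem _ rfl
  obtain ⟨a1, a2, a3⟩ := hs1 x hx
  obtain ⟨b1, b2, b3⟩ := hs1 x' hx'
  refine ⟨s x, s x', a1, b1, a2, b2, a3, b3, ?_⟩
  filter_upwards [hs2] with t ht
  refine ⟨?_, fun h => hxx (ht.2 hx' hx h)⟩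
  rw [ht.1, hf, Set.image_pair]

omit [CompactSpace X] in
include S in
private lemma Pts_infinite : (Set.univ : Set X).Infinite := by
  obtain ⟨x⟩ := (inferInstance : Nonempty X)
  have := S.neBot x
  exact infinite_of_mem_nhds x univ_mem

/-- `f 1` is not constant on all the fibres of `f 0` -/
theorem exists_not_cong (h2 : ∀ j, ∀ t ∉ S.B j, (S.fibre j t).ncard = 2) :
    ∃ p p' : X, S.f 0 p ∉ S.B 0 ∧ p' ≠ p ∧ S.fibre 0 (S.f 0 p) = {p, p'} ∧
      S.f 1 p' - S.f 1 p ∉ L.lattice := by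
  by_contra hcon
  have hcon' : ∀ p p' : X, S.f 0 p ∉ S.B 0 → p' ≠ p → S.fibre 0 (S.f 0 p) = {p, p'} →
      S.f 1 p' - S.f 1 p ∈ L.lattice := by
    intro p p' h1 h3 h4
    by_contra h5
    exact hcon ⟨p, p', h1, h3, h4, h5⟩
  obtain ⟨C, hC⟩ := S.trace_const 0 (Pi.single 1 1)
  -- the quotient of the two forms is constant
  have key : ∀ p : X, S.f 0 p ∉ S.B 0 → S.e 1 p / S.e 0 p = C / 2 := by
    intro p hp
    obtain ⟨p', hpp, hf⟩ := S.Pts_other h2 0 p hp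
    have he : S.e 0 p ≠ 0 := fun h0 => hp ⟨p, S.Pts_mem_self 0 p, h0⟩
    have hp'm : p' ∈ S.fibre 0 (S.f 0 p) := by rw [hf]; exact Set.mem_insert_of_mem _ rfl
    have he' : S.e 0 p' ≠ 0 := fun h0 => hp ⟨p', hp'm, h0⟩
    obtain ⟨s, s', a1, b1, a2, b2, a3, b3, hev⟩ := S.Pts_near p p' (S.f 0 p) hp hf hpp
    have hs : ∀ᶠ t in 𝓝 (S.f 0 p), s t ∈ S.fibre 0 t := by
      filter_upwards [hev] with t ht
      rw [ht.1]
      exact Set.mem_insert _ _
    have hs' : ∀ᶠ t in 𝓝 (S.f 0 p), s' t ∈ S.fibre 0 t := by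
      filter_upwards [hev] with t ht
      rw [ht.1]
      exact Set.mem_insert_of_mem _ rfl
    have hst : Tendsto s (𝓝 (S.f 0 p)) (𝓝 p) := by
      have := a2.tendsto
      rwa [a1] at this
    have hst' : Tendsto s' (𝓝 (S.f 0 p)) (𝓝 p') := by
      have := b2.tendsto
      rwa [b1] at this
    have d1 := S.section_deriv 1 0 p (S.f 0 p) he s a1 a2 a3 hs
    have d2 := S.section_deriv 1 0 p' (S.f 0 p) he' s' b1 b2 b3 hs'
    have hB : ∀ᶠ t in 𝓝 (S.f 0 p), t ∉ S.B 0 := (S.B_closed 0).isOpen_compl.mem_nhds hp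
    have hmem : ∀ᶠ t in 𝓝 (S.f 0 p),
        S.w p' 1 (S.φ p' (s' t)) - S.w p 1 (S.φ p (s t)) ∈ L.lattice := by
      filter_upwards [hev, hs, hB, hst.eventually (S.lift p 1), hst'.eventually (S.lift p' 1)]
        with t h3 h4 h5 h6 h7
      have h8 : S.f 1 (s' t) - S.f 1 (s t) ∈ L.lattice := by
        refine hcon' (s t) (s' t) (S.Pts_not_mem_B 0 _ t h4 h5) h3.2 ?_
        rw [S.Pts_fibre_eq 0 _ t h4]
        exact h3.1
      have h9 := L.lattice.sub_mem (L.lattice.add_mem h8 h6) h7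
      have e : S.f 1 (s' t) - S.f 1 (s t) + (S.f 1 (s t) - S.w p 1 (S.φ p (s t))) -
          (S.f 1 (s' t) - S.w p' 1 (S.φ p' (s' t))) =
          S.w p' 1 (S.φ p' (s' t)) - S.w p 1 (S.φ p (s t)) := by ring
      rwa [e] at h9
    have hcst := lattice_locally_const L
      (fun t => S.w p' 1 (S.φ p' (s' t)) - S.w p 1 (S.φ p (s t))) (S.f 0 p)
      (d2.continuousAt.sub d1.continuousAt) hmem
    have hd : S.e 1 p' / S.e 0 p' - S.e 1 p / S.e 0 p = 0 := by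
      have h3 := (d2.sub d1).deriv
      rw [← h3]
      have h4 : ((fun t => S.w p' 1 (S.φ p' (s' t))) - fun t => S.w p 1 (S.φ p (s t))) =ᶠ[𝓝 (S.f 0 p)]
          fun _ => S.w p' 1 (S.φ p' (s' (S.f 0 p))) - S.w p 1 (S.φ p (s (S.f 0 p))) := by
        filter_upwards [hcst] with t ht
        exact ht
      rw [h4.deriv_eq]
      exact deriv_const _ _
    have hT := hC (S.f 0 p) hp
    unfold Tr at hT
    rw [hf, finsum_mem_pair hpp.symm, S.E_single, S.E_single] at hT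
    linear_combination (1 / 2 : ℂ) * hT - (1 / 2 : ℂ) * hd
  -- a form which vanishes almost everywhere
  have hc : (Pi.single 1 1 - (C / 2) • Pi.single 0 1 : Fin 6 → ℂ) ≠ 0 := by
    intro h0
    have := congrFun h0 1
    simp at this
  have hE : ∀ p : X, S.f 0 p ∉ S.B 0 →
      S.E (Pi.single 1 1 - (C / 2) • Pi.single 0 1 : Fin 6 → ℂ) p = 0 := by
    intro p hp
    have he : S.e 0 p ≠ 0 := fun h0 => hp ⟨p, S.Pts_mem_self 0 p, h0⟩
    have h1 := key p hp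
    rw [div_eq_iff he] at h1
    have h3 : S.E (Pi.single 1 1 - (C / 2) • Pi.single 0 1 : Fin 6 → ℂ) p =
        S.E (Pi.single 1 1) p - (C / 2) * S.E (Pi.single 0 1) p := by
      unfold E
      rw [Finset.mul_sum, ← Finset.sum_sub_distrib]
      refine Finset.sum_congr rfl fun i _ => ?_
      simp only [Pi.sub_apply, Pi.smul_apply, smul_eq_mul]
      ring
    rw [h3, S.E_single, S.E_single, h1, sub_self]
  have hfin := (S.E_finite _ hc).union (S.B_preimage_finite 0)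
  refine S.Pts_infinite (hfin.subset fun x _ => ?_)
  by_cases hx : S.f 0 x ∈ S.B 0
  · exact Or.inr hx
  · exact Or.inl (hE x hx)

theorem exists_pts (h2 : ∀ j, ∀ t ∉ S.B j, (S.fibre j t).ncard = 2) :
    ∃ p p' q : X, S.f 0 p ∉ S.B 0 ∧ p' ≠ p ∧ S.fibre 0 (S.f 0 p) = {p, p'} ∧
      S.f 1 p' - S.f 1 p ∉ L.lattice ∧
      S.f 1 p ∉ S.B 1 ∧ q ≠ p ∧ S.fibre 1 (S.f 1 p) = {p, q} ∧ S.f 0 q ∉ S.B 0 := by
  obtain ⟨p, p', hp, hpp, hf, hn⟩ := S.exists_not_cong h2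
  obtain ⟨s, s', a1, b1, a2, b2, a3, b3, hev⟩ := S.Pts_near p p' (S.f 0 p) hp hf hpp
  have hst : Tendsto s (𝓝 (S.f 0 p)) (𝓝 p) := by
    have := a2.tendsto
    rwa [a1] at this
  have hst' : Tendsto s' (𝓝 (S.f 0 p)) (𝓝 p') := by
    have := b2.tendsto
    rwa [b1] at this
  -- the finite set to be avoided
  set A : Set X := {x | S.f 1 x ∈ S.B 1} ∪ ⋃ q ∈ {q | S.f 0 q ∈ S.B 0}, S.fibre 1 (S.f 1 q) with hA
  have hAfin : A.Finite := by
    refine (S.B_preimage_finite 1).union ?_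
    exact (S.B_preimage_finite 0).biUnion fun q _ => S.fibre_finite 1 _
  have hB : ∀ᶠ t in 𝓝 (S.f 0 p), t ∉ S.B 0 := (S.B_closed 0).isOpen_compl.mem_nhds hp
  have hA' : ∀ᶠ x in 𝓝 p, x ∉ A \ {p} := by
    have hcl : IsClosed (A \ {p}) := (hAfin.subset Set.diff_subset).isClosed
    exact hcl.isOpen_compl.mem_nhds fun h => h.2 rfl
  have hne : ∀ᶠ t in 𝓝[≠] (S.f 0 p), s t ≠ p := by
    have h3 := L.compl_lattice_sdiff_singleton_mem_nhds 0
    have h4 : Tendsto (fun t => S.f 0 p - t) (𝓝 (S.f 0 p)) (𝓝 0) := by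
      have : Tendsto (fun t : ℂ => S.f 0 p - t) (𝓝 (S.f 0 p)) (𝓝 (S.f 0 p - S.f 0 p)) :=
        tendsto_const_nhds.sub tendsto_id
      rwa [sub_self] at this
    have h5 := (h4.eventually h3).filter_mono (nhdsWithin_le_nhds (s := {S.f 0 p}ᶜ))
    filter_upwards [h5, hev.filter_mono nhdsWithin_le_nhds, self_mem_nhdsWithin] with t h6 h7 h8 h9
    have h10 : s t ∈ S.fibre 0 t := by rw [h7.1]; exact Set.mem_insert _ _
    rw [h9] at h10
    refine h6 ⟨h10, fun h11 => h8 ?_⟩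
    rw [Set.mem_singleton_iff] at h11 ⊢
    exact (sub_eq_zero.1 h11).symm
  have hcont : ∀ᶠ t in 𝓝 (S.f 0 p), S.f 1 (s' t) - S.f 1 (s t) ∉ L.lattice := by
    have l1 := S.lift p 1
    have l2 := S.lift p' 1
    have c1 : Tendsto (fun t => S.w p 1 (S.φ p (s t))) (𝓝 (S.f 0 p)) (𝓝 (S.w p 1 (S.φ p p))) :=
      ((S.analytic p 1).continuousAt.tendsto).comp
        ((((S.φ p).continuousAt (S.mem_source p)).tendsto).comp hst)
    have c2 : Tendsto (fun t => S.w p' 1 (S.φ p' (s' t))) (𝓝 (S.f 0 p))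
        (𝓝 (S.w p' 1 (S.φ p' p'))) :=
      ((S.analytic p' 1).continuousAt.tendsto).comp
        ((((S.φ p').continuousAt (S.mem_source p')).tendsto).comp hst')
    have c3 := c2.sub c1
    have hn' : S.w p' 1 (S.φ p' p') - S.w p 1 (S.φ p p) ∉ L.lattice := by
      intro h3
      apply hn
      have h4 := L.lattice.sub_mem (L.lattice.add_mem h3 l2.self_of_nhds) l1.self_of_nhds
      have e : S.w p' 1 (S.φ p' p') - S.w p 1 (S.φ p p) + (S.f 1 p' - S.w p' 1 (S.φ p' p')) -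
          (S.f 1 p - S.w p 1 (S.φ p p)) = S.f 1 p' - S.f 1 p := by ring
      rwa [e] at h4
    have c4 := c3.eventually (L.isClosed_lattice.isOpen_compl.mem_nhds hn')
    filter_upwards [c4, hst.eventually l1, hst'.eventually l2] with t h3 h4 h5 h6
    apply h3
    have h7 := L.lattice.sub_mem (L.lattice.add_mem h6 h4) h5
    have e : S.f 1 (s' t) - S.f 1 (s t) + (S.f 1 (s t) - S.w p 1 (S.φ p (s t))) -
        (S.f 1 (s' t) - S.w p' 1 (S.φ p' (s' t))) =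
        S.w p' 1 (S.φ p' (s' t)) - S.w p 1 (S.φ p (s t)) := by ring
    rwa [e] at h7
  have hall : ∀ᶠ t in 𝓝[≠] (S.f 0 p), (S.fibre 0 t = {s t, s' t} ∧ s' t ≠ s t) ∧ t ∉ S.B 0 ∧
      s t ∉ A \ {p} ∧ s t ≠ p ∧ S.f 1 (s' t) - S.f 1 (s t) ∉ L.lattice := by
    filter_upwards [hev.filter_mono nhdsWithin_le_nhds, hB.filter_mono nhdsWithin_le_nhds,
      (hst.eventually hA').filter_mono nhdsWithin_le_nhds, hne,
      hcont.filter_mono nhdsWithin_le_nhds] with t h3 h4 h5 h6 h7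
    exact ⟨h3, h4, h5, h6, h7⟩
  obtain ⟨t, ⟨h3, h3'⟩, h4, h5, h6, h7⟩ := hall.exists
  have hmem : s t ∈ S.fibre 0 t := by rw [h3]; exact Set.mem_insert _ _
  have hstA : s t ∉ A := fun h8 => h5 ⟨h8, h6⟩
  have hB1 : S.f 1 (s t) ∉ S.B 1 := fun h8 => hstA (Or.inl h8)
  obtain ⟨q, hq, hq'⟩ := S.Pts_other h2 1 (s t) hB1
  refine ⟨s t, s' t, q, S.Pts_not_mem_B 0 _ t hmem h4, h3', ?_, h7, hB1, hq, hq', fun h8 => ?_⟩
  · rw [S.Pts_fibre_eq 0 _ t hmem]
    exact h3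
  · apply hstA
    refine Or.inr (Set.mem_biUnion h8 ?_)
    have h9 : q ∈ S.fibre 1 (S.f 1 (s t)) := by rw [hq']; exact Set.mem_insert_of_mem _ rfl
    rw [S.Pts_fibre_eq 1 q _ h9]
    exact S.Pts_mem_self 1 (s t)

end Sys

end Pool.Agent.H36.NJ
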