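import Pool.Agent.H36.NJ.Fib

set_option autoImplicit false

/-! # Local sections -/

namespace Pool.Agent.H36.NJ

open Complex Filter
open scoped Topology

namespace Sys

variable {L : PeriodPair} {X : Type} [TopologicalSpace X] (S : Sys L X)

/-- the local section through an unramified point -/
theorem section_at (j : Fin 6) (x₀ : X) (t₀ : ℂ) (h : x₀ ∈ S.fibre j t₀) (he : S.e j x₀ ≠ 0) :
    ∃ s : ℂ → X, s t₀ = x₀ ∧ ContinuousAt s t₀ ∧ AnalyticAt ℂ (fun t => S.φ x₀ (s t)) t₀ ∧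
      ∀ᶠ p : X × ℂ in 𝓝 x₀ ×ˢ 𝓝 t₀, p.1 ∈ S.fibre j p.2 ↔ p.1 = s p.2 := by
  have hd : deriv (S.w x₀ j) (S.φ x₀ x₀) ≠ 0 := fun h0 => he ((S.e_eq_zero_iff j x₀).2 h0)
  have hw : AnalyticAt ℂ (S.w x₀ j) (S.φ x₀ x₀) := S.analytic x₀ j
  set φ := S.φ x₀ with hφ
  set w := S.w x₀ j with hwd
  set z₀ : ℂ := φ x₀ with hz₀
  have hsrc : x₀ ∈ φ.source := S.mem_source x₀
  have htgt : z₀ ∈ φ.target := φ.map_source hsrc
  -- the local inverse of the lift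
  obtain ⟨ψ, hψa, hψl, hψr, hψz⟩ : ∃ ψ : ℂ → ℂ, AnalyticAt ℂ ψ (w z₀) ∧
      (∀ᶠ z in 𝓝 z₀, ψ (w z) = z) ∧ (∀ᶠ y in 𝓝 (w z₀), w (ψ y) = y) ∧ ψ (w z₀) = z₀ := by
    refine ⟨hw.hasStrictDerivAt.localInverse _ _ _ hd, hw.analyticAt_localInverse hd,
      hw.hasStrictDerivAt.eventually_left_inverse hd,
      hw.hasStrictDerivAt.eventually_right_inverse hd, ?_⟩
    exact (hw.hasStrictDerivAt.eventually_left_inverse hd).self_of_nhds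
  set σ : ℂ → ℂ := fun t => w z₀ + (t - t₀) with hσ
  have hσ0 : σ t₀ = w z₀ := by simp [hσ]
  have hσa : AnalyticAt ℂ σ t₀ := by
    refine AnalyticAt.add analyticAt_const (analyticAt_id.sub analyticAt_const)
  have hσc : Tendsto σ (𝓝 t₀) (𝓝 (w z₀)) := by
    have := hσa.continuousAt
    unfold ContinuousAt at this
    rwa [hσ0] at this
  have hψσ : AnalyticAt ℂ (fun t => ψ (σ t)) t₀ := by
    refine AnalyticAt.fun_comp ?_ hσa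
    rwa [hσ0]
  have hψσc : Tendsto (fun t => ψ (σ t)) (𝓝 t₀) (𝓝 z₀) := by
    have h1 : Tendsto (fun t => ψ (σ t)) (𝓝 t₀) (𝓝 (ψ (σ t₀))) := hψσ.continuousAt
    rwa [hσ0, hψz] at h1
  have hin : ∀ᶠ t in 𝓝 t₀, ψ (σ t) ∈ φ.target :=
    hψσc.eventually (φ.open_target.mem_nhds htgt)
  have hφs : ∀ᶠ t in 𝓝 t₀, φ (φ.symm (ψ (σ t))) = ψ (σ t) := by
    filter_upwards [hin] with t ht
    exact φ.right_inv ht
  refine ⟨fun t => φ.symm (ψ (σ t)), ?_, ?_, ?_, ?_⟩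
  · change φ.symm (ψ (σ t₀)) = x₀
    rw [hσ0, hψz, hz₀, φ.left_inv hsrc]
  · have h1 : ContinuousAt φ.symm z₀ := φ.continuousAt_symm htgt
    have h2 : Tendsto (fun t => φ.symm (ψ (σ t))) (𝓝 t₀) (𝓝 (φ.symm z₀)) := h1.tendsto.comp hψσc
    unfold ContinuousAt
    change Tendsto (fun t => φ.symm (ψ (σ t))) (𝓝 t₀) (𝓝 (φ.symm (ψ (σ t₀))))
    rw [hσ0, hψz]
    exact h2
  · exact hψσ.congr (hφs.mono fun t ht => ht.symm)
  · have e1 := S.mem_fibre_iff j x₀ t₀ h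
    have e30 : ∀ᶠ x in 𝓝 x₀, x ∈ φ.source := φ.open_source.mem_nhds hsrc
    have hφc : Tendsto φ (𝓝 x₀) (𝓝 z₀) := φ.continuousAt hsrc
    have e2 : ∀ᶠ p : X × ℂ in 𝓝 x₀ ×ˢ 𝓝 t₀, ψ (w (φ p.1)) = φ p.1 :=
      (hφc.eventually hψl).prod_inl _
    have e3 : ∀ᶠ p : X × ℂ in 𝓝 x₀ ×ˢ 𝓝 t₀, p.1 ∈ φ.source :=
      e30.prod_inl _
    have e4 : ∀ᶠ p : X × ℂ in 𝓝 x₀ ×ˢ 𝓝 t₀, w (ψ (σ p.2)) = σ p.2 :=
      (hσc.eventually hψr).prod_inr _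
    have e5 : ∀ᶠ p : X × ℂ in 𝓝 x₀ ×ˢ 𝓝 t₀, φ (φ.symm (ψ (σ p.2))) = ψ (σ p.2) :=
      hφs.prod_inr _
    filter_upwards [e1, e2, e3, e4, e5] with p h1 h2 h3 h4 h5
    rw [h1]
    constructor
    · intro h6
      have h7 : w (φ p.1) = σ p.2 := by
        change w (φ p.1) = w z₀ + (p.2 - t₀)
        rw [← h6]
        ring
      change p.1 = φ.symm (ψ (σ p.2))
      rw [← h7, h2, φ.left_inv h3]
    · intro h6
      change p.1 = φ.symm (ψ (σ p.2)) at h6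
      change w (φ p.1) - w z₀ = p.2 - t₀
      rw [h6, h5, h4]
      change w z₀ + (p.2 - t₀) - w z₀ = p.2 - t₀
      ring

/-- the fibre near a regular value consists of sections -/
theorem fibre_sections [CompactSpace X] [T2Space X] [ConnectedSpace X] (j : Fin 6) (t₀ : ℂ)
    (h : t₀ ∉ S.B j) :
    ∃ s : X → ℂ → X, (∀ x ∈ S.fibre j t₀, s x t₀ = x ∧ ContinuousAt (s x) t₀ ∧
        AnalyticAt ℂ (fun t => S.φ x (s x t)) t₀) ∧
      ∀ᶠ t in 𝓝 t₀, S.fibre j t = (fun x => s x t) '' S.fibre j t₀ ∧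
        Set.InjOn (fun x => s x t) (S.fibre j t₀) := by
  classical
  have hex : ∀ x : X, ∃ s : ℂ → X, x ∈ S.fibre j t₀ → (s t₀ = x ∧ ContinuousAt s t₀ ∧
      AnalyticAt ℂ (fun t => S.φ x (s t)) t₀ ∧
      ∀ᶠ p : X × ℂ in 𝓝 x ×ˢ 𝓝 t₀, p.1 ∈ S.fibre j p.2 ↔ p.1 = s p.2) := by
    intro x
    by_cases hx : x ∈ S.fibre j t₀
    · obtain ⟨s, hs⟩ := S.section_at j x t₀ hx fun h0 => h ⟨x, hx, h0⟩
      exact ⟨s, fun _ => hs⟩
    · exact ⟨fun _ => x, fun h0 => absurd h0 hx⟩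
  choose s hs using hex
  refine ⟨s, fun x hx => ⟨(hs x hx).1, (hs x hx).2.1, (hs x hx).2.2.1⟩, ?_⟩
  have hfin : (S.fibre j t₀).Finite := S.fibre_finite j t₀
  obtain ⟨W, hW, hWd⟩ := hfin.t2_separation
  have hUV : ∀ x : X, ∃ U : Set X, ∃ V : Set ℂ, x ∈ S.fibre j t₀ → (U ∈ 𝓝 x ∧ V ∈ 𝓝 t₀ ∧
      ∀ y ∈ U, ∀ t ∈ V, (y ∈ S.fibre j t ↔ y = s x t)) := by
    intro x
    by_cases hx : x ∈ S.fibre j t₀
    · obtain ⟨U, hU, V, hV, hUV⟩ := Filter.mem_prod_iff.1 (hs x hx).2.2.2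
      exact ⟨U, V, fun _ => ⟨hU, hV, fun y hy t ht => hUV (Set.mk_mem_prod hy ht)⟩⟩
    · exact ⟨∅, ∅, fun h0 => absurd h0 hx⟩
  choose U V hUV using hUV
  have hnear := S.fibre_near j t₀ (⋃ x ∈ S.fibre j t₀, (U x ∩ W x)) (by
    intro x hx
    refine Filter.mem_of_superset (Filter.inter_mem (hUV x hx).1
      ((hW x).2.mem_nhds (hW x).1)) ?_
    exact Set.subset_biUnion_of_mem (u := fun x => U x ∩ W x) hx)
  have hall : ∀ᶠ t in 𝓝 t₀, ∀ x ∈ S.fibre j t₀, s x t ∈ U x ∩ W x ∧ t ∈ V x := by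
    refine (Filter.eventually_all_finite hfin).2 fun x hx => ?_
    have h1 : Tendsto (s x) (𝓝 t₀) (𝓝 x) := by
      have := (hs x hx).2.1
      unfold ContinuousAt at this
      rwa [(hs x hx).1] at this
    have h2 : ∀ᶠ t in 𝓝 t₀, s x t ∈ U x ∩ W x :=
      h1.eventually (Filter.inter_mem (hUV x hx).1 ((hW x).2.mem_nhds (hW x).1))
    filter_upwards [h2, (hUV x hx).2.1] with t h3 h4
    exact ⟨h3, h4⟩
  filter_upwards [hnear, hall] with t h1 h2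
  refine ⟨?_, ?_⟩
  · ext y
    constructor
    · intro hy
      obtain ⟨x, hx, hyx⟩ := Set.mem_iUnion₂.1 (h1 hy)
      exact ⟨x, hx, (((hUV x hx).2.2 y hyx.1 t (h2 x hx).2).1 hy).symm⟩
    · rintro ⟨x, hx, rfl⟩
      exact ((hUV x hx).2.2 (s x t) (h2 x hx).1.1 t (h2 x hx).2).2 rfl
  · intro x hx x' hx' hxx
    by_contra hne
    have h3 := hWd hx hx' hne
    have h4 : s x t ∈ W x := (h2 x hx).1.2
    have h5 : s x t ∈ W x' := by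
      have := (h2 x' hx').1.2
      have h6 : s x t = s x' t := hxx
      rw [h6]
      exact this
    exact (Set.disjoint_left.1 h3) h4 h5

/-- the derivative of `f i` along a section of `f j` -/
theorem section_deriv (i j : Fin 6) (x₀ : X) (t₀ : ℂ) (he : S.e j x₀ ≠ 0) (s : ℂ → X)
    (hs : s t₀ = x₀) (hc : ContinuousAt s t₀) (ha : AnalyticAt ℂ (fun t => S.φ x₀ (s t)) t₀)
    (hf : ∀ᶠ t in 𝓝 t₀, s t ∈ S.fibre j t) :
    HasDerivAt (fun t => S.w x₀ i (S.φ x₀ (s t))) (S.e i x₀ / S.e j x₀) t₀ := by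
  have hd : deriv (S.w x₀ j) (S.φ x₀ x₀) ≠ 0 := fun h0 => he ((S.e_eq_zero_iff j x₀).2 h0)
  have hmem : x₀ ∈ S.fibre j t₀ := by
    have := hf.self_of_nhds
    rwa [hs] at this
  have hst : Tendsto s (𝓝 t₀) (𝓝 x₀) := by
    unfold ContinuousAt at hc
    rwa [hs] at hc
  have hg := ha.differentiableAt.hasDerivAt
  set g' : ℂ := deriv (fun t => S.φ x₀ (s t)) t₀ with hg'
  have hval : S.φ x₀ (s t₀) = S.φ x₀ x₀ := by rw [hs]
  have hcomp : ∀ k : Fin 6, HasDerivAt (fun t => S.w x₀ k (S.φ x₀ (s t)))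
      (deriv (S.w x₀ k) (S.φ x₀ x₀) * g') t₀ := by
    intro k
    have h1 : HasDerivAt (S.w x₀ k) (deriv (S.w x₀ k) (S.φ x₀ x₀)) (S.φ x₀ (s t₀)) := by
      rw [hval]
      exact (S.analytic x₀ k).differentiableAt.hasDerivAt
    exact h1.comp t₀ hg
  have hpair : Tendsto (fun t => (s t, t)) (𝓝 t₀) (𝓝 x₀ ×ˢ 𝓝 t₀) := hst.prodMk tendsto_id
  have h1 : ∀ᶠ t in 𝓝 t₀, S.w x₀ j (S.φ x₀ (s t)) = S.w x₀ j (S.φ x₀ x₀) + (t - t₀) := by
    filter_upwards [hpair.eventually (S.mem_fibre_iff j x₀ t₀ hmem), hf] with t h2 h3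
    have h4 := h2.1 h3
    rw [← h4]
    ring
  have h2 : HasDerivAt (fun t => S.w x₀ j (S.φ x₀ (s t))) 1 t₀ := by
    have h3 : HasDerivAt (fun t : ℂ => S.w x₀ j (S.φ x₀ x₀) + (t - t₀)) 1 t₀ :=
      ((hasDerivAt_id t₀).sub_const t₀).const_add _
    exact h3.congr_of_eventuallyEq h1
  have h3 : deriv (S.w x₀ j) (S.φ x₀ x₀) * g' = 1 := (hcomp j).unique h2
  obtain ⟨κ, hκ, hκe⟩ := (S.form x₀).self_of_nhds
  have h4 : S.e i x₀ / S.e j x₀ = deriv (S.w x₀ i) (S.φ x₀ x₀) * g' := by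
    rw [hκe i, hκe j, mul_div_mul_left _ _ hκ, div_eq_iff hd]
    calc deriv (S.w x₀ i) (S.φ x₀ x₀) = deriv (S.w x₀ i) (S.φ x₀ x₀)
          * (deriv (S.w x₀ j) (S.φ x₀ x₀) * g') := by rw [h3, mul_one]
      _ = _ := by ring
  rw [h4]
  exact hcomp i

end Sys

end Pool.Agent.H36.NJ
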