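import Pool.Agent.H36.NJ.Defs
import Pool.Agent.H36.G00.Main
import Pool.Agent.H36.G00.Heat

set_option autoImplicit false

/-! # The section `Θ[e*]` of `2Θ` and the odd Jacobi theta function -/

namespace Pool.Agent.H36.G00

open Complex Matrix Filter
open scoped Topology

/-- the period pair `(1, ω)` -/
noncomputable def Lom : PeriodPair where
  ω₁ := 1
  ω₂ := om
  indep := by
    rw [LinearIndependent.pair_iff]
    intro s t h
    have h3 : (0 : ℝ) < Real.sqrt 3 := sqrt3_pos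
    have h1 : (s • (1 : ℂ) + t • om).im = 0 := by rw [h]; rfl
    have h2 : (s • (1 : ℂ) + t • om).re = 0 := by rw [h]; rfl
    have e1 : (s • (1 : ℂ) + t • om).im = t * (Real.sqrt 3 / 2) := by
      simp [om]
    have e2 : (s • (1 : ℂ) + t • om).re = s + t * (-1 / 2) := by
      simp [om]
    rw [e1] at h1
    rw [e2] at h2
    have ht : t = 0 := by
      rcases mul_eq_zero.mp h1 with h | h
      · exact h
      · exfalso
        linarith
    refine ⟨?_, ht⟩
    rw [ht] at h2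
    linarith

lemma Sec_mem {l : ℂ} : l ∈ Lom.lattice ↔ ∃ m n : ℤ, (m : ℂ) + n * om = l := by
  rw [PeriodPair.mem_lattice]
  simp [Lom]

/-- the second order theta functions are sections of `2Θ` -/
theorem Theta_isSection {ι : Type} [Fintype ι] [DecidableEq ι] (τ : Matrix ι ι ℂ)
    (hτ : InSiegel τ) (e : ι → Fin 2) : IsSection τ (Theta e τ) := by
  constructor
  · obtain ⟨D, D2, hD, -, -⟩ := m7_second (m7_a τ e) (fun n => m7_l (m7_x e n)) (m7_summable hτ e)
    intro z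
    have h : Theta e τ = fun z => ∑' n, m7_a τ e n * cexp (m7_l (m7_x e n) z) :=
      funext fun z => m7_Theta e τ z
    rw [h]
    exact (hD z).differentiableAt
  · intro m n z
    rw [Theta, Theta, ← tsum_mul_left, ← (Equiv.addRight n).tsum_eq (fun k : ι → ℤ =>
      cexp (-(2 * Real.pi * I * ((fun i => (n i : ℂ)) ⬝ᵥ τ *ᵥ (fun i => (n i : ℂ)) +
        2 * ((fun i => (n i : ℂ)) ⬝ᵥ z)))) * cexp (2 * Real.pi * I *
      ((fun i => (k i : ℂ) + ((e i : ℕ) : ℂ) / 2) ⬝ᵥ τ *ᵥ (fun i => (k i : ℂ) + ((e i : ℕ) : ℂ) / 2) +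
      2 * ((fun i => (k i : ℂ) + ((e i : ℕ) : ℂ) / 2) ⬝ᵥ z))))]
    refine tsum_congr fun k => ?_
    rw [← Complex.exp_add, Complex.exp_eq_exp_iff_exists_int]
    refine ⟨∑ i, (2 * k i + ((e i : ℕ) : ℤ)) * m i, ?_⟩
    set x : ι → ℂ := fun i => (k i : ℂ) + ((e i : ℕ) : ℂ) / 2 with hx
    set N : ι → ℂ := fun i => (n i : ℂ) with hN
    set M : ι → ℂ := fun i => (m i : ℂ) with hM
    have h1 : (fun i => ((Equiv.addRight n k i : ℤ) : ℂ) + ((e i : ℕ) : ℂ) / 2) = x + N := by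
      funext i
      simp only [Equiv.coe_addRight, Pi.add_apply, hx, hN]
      push_cast
      ring
    have h2 : pt τ m n = M + τ *ᵥ N := rfl
    have h3 : N ⬝ᵥ τ *ᵥ x = x ⬝ᵥ τ *ᵥ N := by
      rw [dotProduct_comm, ← vecMul_transpose, hτ.1.eq, ← dotProduct_mulVec]
    have h4 : ((∑ i, (2 * k i + ((e i : ℕ) : ℤ)) * m i : ℤ) : ℂ) = 2 * (x ⬝ᵥ M) := by
      push_cast
      rw [dotProduct, Finset.mul_sum]
      refine Finset.sum_congr rfl fun i _ => ?_
      simp only [hx, hM]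
      ring
    rw [h1, h2, h4]
    simp only [mulVec_add, add_dotProduct, dotProduct_add]
    rw [h3]
    ring

/-- the section for `e* = (1, ..., 1)` is a product of six odd Jacobi theta functions -/
theorem Theta_one (z : Fin 6 → ℂ) :
    Theta (fun _ => 1) tau0 z = ph (fun _ => 1) * ∏ i, J 0 1 1 (2 * z i) := by
  rw [Theta_eq, PP]
  congr 1
  refine Finset.prod_congr rfl fun i _ => ?_
  have h : ∃ m : ℤ, ch (fun _ => 1) i = 1 + 2 * m := by
    fin_cases i
    · exact ⟨3, by decide⟩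
    all_goals exact ⟨1, by decide⟩
  obtain ⟨m, hm⟩ := h
  rw [hm, J_add_two]
  rfl

/-- quasi-periodicity, explicit form -/
lemma Sec_J_add (z : ℂ) (a b : ℤ) : J 0 1 1 (z + (a + b * om)) =
    cexp (Real.pi * I * a - Real.pi * I * b - Real.pi * I * om * b ^ 2 - 2 * Real.pi * I * b * z) *
      J 0 1 1 z := by
  rw [J, J, ← tsum_mul_left, ← (Equiv.addRight (b : ℤ)).tsum_eq (fun n : ℤ =>
    cexp (Real.pi * I * a - Real.pi * I * b - Real.pi * I * om * b ^ 2 - 2 * Real.pi * I * b * z) *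
      (coef 1 1 n * fr 1 n ^ 0 * cexp (z * fr 1 n)))]
  apply tsum_congr
  intro n
  simp only [Equiv.coe_addRight, pow_zero, mul_one]
  rw [coef, coef, fr, fr, ← Complex.exp_add, ← Complex.exp_add, ← Complex.exp_add,
    Complex.exp_eq_exp_iff_exists_int]
  refine ⟨n * a, ?_⟩
  push_cast
  ring

/-- quasi-periodicity -/
theorem J_add (z l : ℂ) (hl : l ∈ Lom.lattice) : ∃ a : ℂ, a ≠ 0 ∧ J 0 1 1 (z + l) = a * J 0 1 1 z := by
  obtain ⟨m, n, rfl⟩ := Sec_mem.mp hl
  exact ⟨_, Complex.exp_ne_zero _, Sec_J_add z m n⟩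

theorem J_lattice (z : ℂ) (hz : z ∈ Lom.lattice) : J 0 1 1 z = 0 := by
  obtain ⟨a, -, h⟩ := J_add 0 z hz
  rw [zero_add, J_0_11, mul_zero] at h
  exact h

lemma Sec_J_analyticAt (z : ℂ) : AnalyticAt ℂ (J 0 1 1) z := by
  have h : Differentiable ℂ (J 0 1 1) := fun w => (hasDerivAt_J 0 1 1 w).differentiableAt
  exact h.analyticAt z

lemma Sec_J_order_ne_top (z : ℂ) : analyticOrderAt (J 0 1 1) z ≠ ⊤ := by
  intro h
  rw [analyticOrderAt_eq_top] at h
  have h1 : J 0 1 1 = 0 := by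
    refine AnalyticOnNhd.eq_of_eventuallyEq (𝕜 := ℂ) (z₀ := z) (fun w _ => Sec_J_analyticAt w)
      (fun w _ => analyticAt_const) ?_
    exact h
  have h2 := hasDerivAt_J 0 1 1 0
  rw [h1] at h2
  exact J_1110_ne (h2.unique (hasDerivAt_const (0 : ℂ) (0 : ℂ)))

/-- the order of vanishing along a map that meets the lattice -/
theorem J_order (w : ℂ → ℂ) (z₀ : ℂ) (hw : AnalyticAt ℂ w z₀) (h : w z₀ ∈ Lom.lattice) :
    analyticOrderAt (fun z => w z - w z₀) z₀ ≤ analyticOrderAt (fun z => J 0 1 1 (w z)) z₀ := by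
  have h1 := (Sec_J_analyticAt (w z₀)).analyticOrderAt_comp hw
  have h2 : (fun z => J 0 1 1 (w z)) = J 0 1 1 ∘ w := rfl
  rw [h2, h1]
  have h3 : 1 ≤ analyticOrderAt (J 0 1 1) (w z₀) := by
    rw [Order.one_le_iff_ne_zero, (Sec_J_analyticAt (w z₀)).analyticOrderAt_ne_zero]
    exact J_lattice _ h
  calc analyticOrderAt (fun z => w z - w z₀) z₀
      = 1 * analyticOrderAt (fun z => w z - w z₀) z₀ := (one_mul _).symm
    _ ≤ _ := mul_le_mul_left h3 _

theorem prod_order (w : Fin 6 → ℂ → ℂ) (z₀ : ℂ) (hw : ∀ i, AnalyticAt ℂ (w i) z₀) (a : ℂ)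
    (ha : a ≠ 0) : analyticOrderAt (fun z => a * ∏ i, J 0 1 1 (w i z)) z₀ =
      ∑ i, analyticOrderAt (fun z => J 0 1 1 (w i z)) z₀ := by
  have h1 : ∀ i, AnalyticAt ℂ (fun z => J 0 1 1 (w i z)) z₀ := fun i =>
    (Sec_J_analyticAt (w i z₀)).comp (hw i)
  have h2 : ∀ s : Finset (Fin 6), AnalyticAt ℂ (fun z => ∏ i ∈ s, J 0 1 1 (w i z)) z₀ ∧
      analyticOrderAt (fun z => ∏ i ∈ s, J 0 1 1 (w i z)) z₀ =
      ∑ i ∈ s, analyticOrderAt (fun z => J 0 1 1 (w i z)) z₀ := by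
    intro s
    induction s using Finset.induction_on with
    | empty =>
      simp only [Finset.prod_empty, Finset.sum_empty]
      refine ⟨analyticAt_const, ?_⟩
      rw [AnalyticAt.analyticOrderAt_eq_zero analyticAt_const]
      exact one_ne_zero
    | insert i s hi ih =>
      simp only [Finset.prod_insert hi, Finset.sum_insert hi]
      refine ⟨(h1 i).mul ih.1, ?_⟩
      rw [← ih.2]
      exact analyticOrderAt_mul (h1 i) ih.1
  have h3 : analyticOrderAt (fun _ : ℂ => a) z₀ = 0 := by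
    rw [AnalyticAt.analyticOrderAt_eq_zero analyticAt_const]
    exact ha
  have h4 := analyticOrderAt_mul (f := fun _ : ℂ => a) (z₀ := z₀) analyticAt_const
    (h2 Finset.univ).1
  rw [h3, zero_add, (h2 Finset.univ).2] at h4
  exact h4

/-- the zeros of `J 0 1 1` along a nonconstant map are isolated -/
theorem J_ne (w : ℂ → ℂ) (z₀ : ℂ) (hw : AnalyticAt ℂ w z₀)
    (h : analyticOrderAt (fun z => w z - w z₀) z₀ ≠ ⊤) :
    ∀ᶠ z in 𝓝[≠] z₀, J 0 1 1 (w z) ≠ 0 := by
  have h1 := (Sec_J_analyticAt (w z₀)).analyticOrderAt_comp hw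
  have h2 : AnalyticAt ℂ (J 0 1 1 ∘ w) z₀ := (Sec_J_analyticAt (w z₀)).comp hw
  rcases h2.eventually_eq_zero_or_eventually_ne_zero with h3 | h3
  · exfalso
    rw [analyticOrderAt_eq_top.mpr h3] at h1
    have h4 := WithTop.mul_ne_top (Sec_J_order_ne_top (w z₀)) h
    exact h4 h1.symm
  · exact h3

/-- twice a vector of the lattice of `tau0` has coordinates in `ℤ[ω]` -/
theorem two_mul_mem (z : Fin 6 → ℂ) (hz : z ∈ lattice tau0) (i : Fin 6) : 2 * z i ∈ Lom.lattice := by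
  obtain ⟨m, n, rfl⟩ := hz
  rw [Sec_mem]
  refine ⟨2 * m i + ∑ j, Sm i j * n j, n i, ?_⟩
  have h1 : ∀ j, tau0 i j * (n j : ℂ) = (if i = j then om / 2 * n j else 0) +
      (Sm i j : ℂ) * n j / 2 := by
    intro j
    rw [tau0]
    split_ifs <;> ring
  rw [pt, Pi.add_apply, mulVec, dotProduct, Finset.sum_congr rfl fun j _ => h1 j,
    Finset.sum_add_distrib, Finset.sum_ite_eq, if_pos (Finset.mem_univ i), ← Finset.sum_div]
  push_cast
  ring

end Pool.Agent.H36.G00
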