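import Mathlib

set_option autoImplicit false

/-! # Six torus maps on a compact space: the abstract data -/

namespace Pool.Agent.H36.NJ

open Complex Filter
open scoped Topology

/-- Six maps `f i : X → ℂ` modulo the lattice of `L`, with local lifts `w x i` in the chart
`φ x` around `x`, and the values `e i` of their differentials (up to a common factor). -/
structure Sys (L : PeriodPair) (X : Type) [TopologicalSpace X] where
  f : Fin 6 → X → ℂ
  e : Fin 6 → X → ℂ
  φ : X → OpenPartialHomeomorph X ℂ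
  w : X → Fin 6 → ℂ → ℂ
  mem_source : ∀ x, x ∈ (φ x).source
  analytic : ∀ x i, AnalyticAt ℂ (w x i) (φ x x)
  lift : ∀ x i, ∀ᶠ y in 𝓝 x, f i y - w x i (φ x y) ∈ L.lattice
  form : ∀ x, ∀ᶠ y in 𝓝 x, ∃ κ : ℂ, κ ≠ 0 ∧ ∀ i, e i y = κ * deriv (w x i) (φ x y)
  indep : ∀ c : Fin 6 → ℂ, c ≠ 0 → ∃ x, ∑ i, c i * e i x ≠ 0

namespace Sys

variable {L : PeriodPair} {X : Type} [TopologicalSpace X] (S : Sys L X)

/-- the form `∑ c_i e_i` -/
noncomputable def E (c : Fin 6 → ℂ) (x : X) : ℂ := ∑ i, c i * S.e i x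

/-- the fibre of `f j` over `t` modulo the lattice -/
def fibre (j : Fin 6) (t : ℂ) : Set X := {x | S.f j x - t ∈ L.lattice}

/-- the trace of the function `H` along `f j` -/
noncomputable def Tr (j : Fin 6) (H : X → ℂ) (t : ℂ) : ℂ := ∑ᶠ x ∈ S.fibre j t, H x

/-- the branch values of `f j` -/
def B (j : Fin 6) : Set ℂ := {t | ∃ x ∈ S.fibre j t, S.e j x = 0}

/-- `H` is holomorphic near `x` -/
def Hol (H : X → ℂ) (x : X) : Prop :=
  ∃ G : ℂ → ℂ, AnalyticAt ℂ G (S.φ x x) ∧ ∀ᶠ y in 𝓝 x, H y = G (S.φ x y)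

/-- the multiplicity of `f j` at `x` -/
noncomputable def mult (j : Fin 6) (x : X) : ℕ∞ :=
  analyticOrderAt (fun z => S.w x j z - S.w x j (S.φ x x)) (S.φ x x)

/-- the degree condition -/
def DegLe : Prop :=
  ∀ s : Finset X, (∑ x ∈ s, ∑ j, Set.indicator (S.fibre j 0) (S.mult j) x) ≤ 12

end Sys

end Pool.Agent.H36.NJ
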