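import Pool.Agent.H36.NJ.Sct

set_option autoImplicit false

/-! # Traces -/

namespace Pool.Agent.H36.NJ

open Complex Filter
open scoped Topology

namespace Sys

variable {L : PeriodPair} {X : Type} [TopologicalSpace X] (S : Sys L X)

lemma Tr_per (j : Fin 6) (H : X → ℂ) (t l : ℂ) (hl : l ∈ L.lattice) :
    S.Tr j H (t + l) = S.Tr j H t := by
  simp only [Tr, S.fibre_add j t l hl]

lemma B_per (j : Fin 6) (t l : ℂ) (hl : l ∈ L.lattice) (ht : t ∈ S.B j) : t + l ∈ S.B j := by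
  obtain ⟨x, hx, he⟩ := ht
  exact ⟨x, by rw [S.fibre_add j t l hl]; exact hx, he⟩

private lemma Trc_B_eq (j : Fin 6) :
    S.B j = ⋃ x ∈ {x | S.e j x = 0}, {t | S.f j x - t ∈ L.lattice} := by
  ext t
  simp only [B, fibre, Set.mem_ofPred_eq, Set.mem_iUnion, exists_prop]
  constructor
  · rintro ⟨x, h1, h2⟩
    exact ⟨x, h2, h1⟩
  · rintro ⟨x, h1, h2⟩
    exact ⟨x, h2, h1⟩

private lemma Trc_discrete (L : PeriodPair) (a t₀ : ℂ) :
    ∀ᶠ t in 𝓝[≠] t₀, a - t ∉ L.lattice := by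
  have h1 : Tendsto (fun t : ℂ => a - t) (𝓝 t₀) (𝓝 (a - t₀)) :=
    (continuous_const.sub continuous_id).tendsto t₀
  have h2 : ∀ᶠ t in 𝓝 t₀, a - t ∈ (↑L.lattice \ {a - t₀} : Set ℂ)ᶜ :=
    h1.eventually (L.compl_lattice_sdiff_singleton_mem_nhds (a - t₀))
  rw [eventually_nhdsWithin_iff]
  filter_upwards [h2] with t ht hne hc
  apply ht
  refine ⟨hc, ?_⟩
  intro h3
  apply hne
  have h4 : a - t = a - t₀ := h3
  have h5 : t = t₀ := by linear_combination -h4
  exact h5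

theorem B_discrete [CompactSpace X] [ConnectedSpace X] (j : Fin 6) (t₀ : ℂ) :
    ∀ᶠ t in 𝓝[≠] t₀, t ∉ S.B j := by
  have h : ∀ᶠ t in 𝓝[≠] t₀, ∀ x ∈ {x | S.e j x = 0}, S.f j x - t ∉ L.lattice :=
    (eventually_all_finite (S.e_finite j)).mpr fun x _ => Trc_discrete L (S.f j x) t₀
  filter_upwards [h] with t ht hB
  obtain ⟨x, hx, he⟩ := hB
  exact ht x he hx

theorem B_countable [CompactSpace X] [ConnectedSpace X] (j : Fin 6) : (S.B j).Countable := by
  rw [S.Trc_B_eq j]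
  refine Set.Countable.biUnion (S.e_finite j).countable fun x _ => ?_
  have hc : (L.lattice : Set ℂ).Countable := by
    have : Countable L.lattice := Countable.of_equiv _ L.latticeEquivProd.symm.toEquiv
    exact Set.countable_coe_iff.mp this
  have h1 : {t | S.f j x - t ∈ L.lattice} ⊆ (fun l => S.f j x - l) '' (L.lattice : Set ℂ) := by
    intro t ht
    exact ⟨S.f j x - t, ht, by ring⟩
  exact (hc.image _).mono h1

theorem B_closed [CompactSpace X] [ConnectedSpace X] (j : Fin 6) : IsClosed (S.B j) := by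
  rw [S.Trc_B_eq j]
  refine (S.e_finite j).isClosed_biUnion fun x _ => ?_
  have h1 : Continuous (fun t : ℂ => S.f j x - t) := continuous_const.sub continuous_id
  exact L.isClosed_lattice.preimage h1

/-- all points but finitely many have a regular value under `f j` -/
theorem B_preimage_finite [CompactSpace X] [ConnectedSpace X] (j : Fin 6) :
    {x | S.f j x ∈ S.B j}.Finite := by
  have h : (⋃ r ∈ {x | S.e j x = 0}, S.fibre j (S.f j r)).Finite :=
    (S.e_finite j).biUnion fun r _ => S.fibre_finite j (S.f j r)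
  refine h.subset ?_
  rintro x ⟨r, hr, he⟩
  refine Set.mem_biUnion (x := r) he ?_
  have h1 : S.f j r - S.f j x ∈ L.lattice := hr
  have h2 : S.f j x - S.f j r ∈ L.lattice := by
    have h3 := L.lattice.neg_mem h1
    rwa [neg_sub] at h3
  exact h2

theorem Tr_hol [CompactSpace X] [T2Space X] [ConnectedSpace X] (j : Fin 6) (H : X → ℂ) (t₀ : ℂ)
    (h : t₀ ∉ S.B j) (hH : ∀ x ∈ S.fibre j t₀, S.Hol H x) : AnalyticAt ℂ (S.Tr j H) t₀ := by
  classical
  obtain ⟨s, hs, hev⟩ := S.fibre_sections j t₀ h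
  have hfin : (S.fibre j t₀).Finite := S.fibre_finite j t₀
  have hterm : ∀ x ∈ hfin.toFinset, AnalyticAt ℂ (fun t => H (s x t)) t₀ := by
    intro x hx
    have hx' : x ∈ S.fibre j t₀ := hfin.mem_toFinset.mp hx
    obtain ⟨h1, h2, h3⟩ := hs x hx'
    obtain ⟨G, hG, hGe⟩ := hH x hx'
    have h4 : Tendsto (s x) (𝓝 t₀) (𝓝 x) := by
      have := h2.tendsto
      rwa [h1] at this
    have h5 : AnalyticAt ℂ (fun t => G (S.φ x (s x t))) t₀ := by
      have hG' : AnalyticAt ℂ G (S.φ x (s x t₀)) := by rw [h1]; exact hG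
      exact AnalyticAt.fun_comp (g := G) (f := fun t => S.φ x (s x t)) hG' h3
    refine h5.congr ?_
    filter_upwards [h4.eventually hGe] with t ht
    exact ht.symm
  have hsum : AnalyticAt ℂ (fun t => ∑ x ∈ hfin.toFinset, H (s x t)) t₀ :=
    Finset.analyticAt_fun_sum _ hterm
  refine hsum.congr ?_
  filter_upwards [hev] with t ht
  obtain ⟨ht1, ht2⟩ := ht
  simp only [Tr]
  rw [ht1, finsum_mem_image ht2, finsum_mem_eq_finite_toFinset_sum _ hfin]

theorem Tr_growth [CompactSpace X] [ConnectedSpace X] (j : Fin 6) (H : X → ℂ) (t₀ : ℂ) (n N : ℕ)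
    (hN : ∀ᶠ t in 𝓝[≠] t₀, (S.fibre j t).ncard ≤ N)
    (hH : ∀ x ∈ S.fibre j t₀, Tendsto
      (fun y => (S.w x j (S.φ x y) - S.w x j (S.φ x x)) ^ n * H y) (𝓝[≠] x) (𝓝 0)) :
    Tendsto (fun t => (t - t₀) ^ n * S.Tr j H t) (𝓝[≠] t₀) (𝓝 0) := by
  rw [Metric.tendsto_nhds]
  intro ε hε
  have hN1 : (0 : ℝ) < N + 1 := by positivity
  have hε' : 0 < ε / (N + 1) := by positivity
  have hloc : ∀ x : X, ∀ᶠ p : X × ℂ in 𝓝 x ×ˢ 𝓝 t₀, p.2 ≠ t₀ → p.1 ∈ S.fibre j p.2 →
      ‖(p.2 - t₀) ^ n * H p.1‖ < ε / (N + 1) := by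
    intro x
    by_cases hx : x ∈ S.fibre j t₀
    · have h1 : ∀ᶠ y in 𝓝[≠] x,
          dist ((S.w x j (S.φ x y) - S.w x j (S.φ x x)) ^ n * H y) 0 < ε / (N + 1) :=
        (Metric.tendsto_nhds.mp (hH x hx)) _ hε'
      rw [eventually_nhdsWithin_iff] at h1
      have h2 : ∀ᶠ p : X × ℂ in 𝓝 x ×ˢ 𝓝 t₀, p.1 ∈ ({x}ᶜ : Set X) →
          dist ((S.w x j (S.φ x p.1) - S.w x j (S.φ x x)) ^ n * H p.1) 0 < ε / (N + 1) :=
        tendsto_fst.eventually h1
      filter_upwards [h2, S.mem_fibre_iff j x t₀ hx] with p hp1 hp2 hne hmem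
      have h3 := hp2.mp hmem
      have h4 : p.1 ∈ ({x}ᶜ : Set X) := by
        intro hc
        have hc' : p.1 = x := hc
        rw [hc', sub_self] at h3
        exact hne (sub_eq_zero.mp h3.symm)
      have h5 := hp1 h4
      rw [h3, dist_zero_right] at h5
      exact h5
    · filter_upwards [S.not_mem_fibre j x t₀ hx] with p hp _ hmem
      exact absurd hmem hp
  have hall : ∀ᶠ t in 𝓝 t₀, ∀ y ∈ (Set.univ : Set X), t ≠ t₀ → y ∈ S.fibre j t →
      ‖(t - t₀) ^ n * H y‖ < ε / (N + 1) := by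
    apply isCompact_univ.eventually_forall_of_forall_eventually
    intro x _
    rw [nhds_prod_eq]
    have h3 : Tendsto (fun z : ℂ × X => (z.2, z.1)) (𝓝 t₀ ×ˢ 𝓝 x) (𝓝 x ×ˢ 𝓝 t₀) :=
      tendsto_snd.prodMk tendsto_fst
    exact h3.eventually (hloc x)
  have hall' : ∀ᶠ t in 𝓝[≠] t₀, ∀ y ∈ S.fibre j t, ‖(t - t₀) ^ n * H y‖ < ε / (N + 1) := by
    rw [eventually_nhdsWithin_iff]
    filter_upwards [hall] with t ht hne y hy
    exact ht y (Set.mem_univ y) hne hy
  filter_upwards [hall', hN] with t ht hc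
  have hfin : (S.fibre j t).Finite := S.fibre_finite j t
  rw [dist_zero_right]
  simp only [Tr]
  rw [finsum_mem_eq_finite_toFinset_sum _ hfin, Finset.mul_sum]
  calc ‖∑ y ∈ hfin.toFinset, (t - t₀) ^ n * H y‖
      ≤ ∑ y ∈ hfin.toFinset, ‖(t - t₀) ^ n * H y‖ := norm_sum_le _ _
    _ ≤ ∑ y ∈ hfin.toFinset, ε / (N + 1) :=
        Finset.sum_le_sum fun y hy => (ht y (hfin.mem_toFinset.mp hy)).le
    _ = (S.fibre j t).ncard * (ε / (N + 1)) := by
        rw [Finset.sum_const, nsmul_eq_mul, Set.ncard_eq_toFinset_card _ hfin]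
    _ ≤ N * (ε / (N + 1)) := by
        have : ((S.fibre j t).ncard : ℝ) ≤ N := by exact_mod_cast hc
        exact mul_le_mul_of_nonneg_right this hε'.le
    _ < ε := by
        have h6 : (N : ℝ) * (ε / (N + 1)) = ε * (N / (N + 1)) := by ring
        rw [h6]
        have h7 : (N : ℝ) / (N + 1) < 1 := (div_lt_one hN1).mpr (by linarith)
        nlinarith

end Sys

end Pool.Agent.H36.NJ
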