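import Pool.Agent.H36.NJ.Trc
import Pool.Agent.H36.NJ.Ell
import Pool.Agent.H36.NJ.Mul

set_option autoImplicit false

/-! # All six maps have degree two -/

namespace Pool.Agent.H36.NJ

open Complex Filter
open scoped Topology

private lemma Two_finite_compl {X : Type} [TopologicalSpace X] [T2Space X] (A : Set X)
    (hA : A.Finite) (x : X) : ∀ᶠ y in 𝓝[≠] x, y ∉ A := by
  have h1 : (A \ {x})ᶜ ∈ 𝓝 x :=
    (hA.subset Set.sdiff_subset).isClosed.isOpen_compl.mem_nhds fun h => h.2 rfl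
  filter_upwards [mem_nhdsWithin_of_mem_nhds h1, self_mem_nhdsWithin] with y h2 h3 h4
  exact h2 ⟨h4, h3⟩

private lemma Two_exists_compl (B : Set ℂ) (hB : B.Countable) : ∃ t, t ∉ B := by
  have h : IsPathConnected Bᶜ := hB.isPathConnected_compl_of_one_lt_rank (by
    rw [Complex.rank_real_complex]
    exact Cardinal.one_lt_two)
  exact h.nonempty

namespace Sys

variable {L : PeriodPair} {X : Type} [TopologicalSpace X] [CompactSpace X] [T2Space X]
  [ConnectedSpace X] (S : Sys L X)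

omit [CompactSpace X] [T2Space X] [ConnectedSpace X] in
lemma Two_mem_fibre (j : Fin 6) (x : X) : x ∈ S.fibre j (S.f j x) := by
  change S.f j x - S.f j x ∈ L.lattice
  rw [sub_self]
  exact L.lattice.zero_mem

/-- the generic fibre has a constant number of points -/
theorem exists_deg (j : Fin 6) : ∃ d : ℕ, 0 < d ∧ ∀ t ∉ S.B j, (S.fibre j t).ncard = d := by
  classical
  have hloc : ∀ t₀, t₀ ∉ S.B j → ∀ᶠ t in 𝓝 t₀, (S.fibre j t).ncard = (S.fibre j t₀).ncard := by
    intro t₀ ht₀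
    obtain ⟨s, _, h2⟩ := S.fibre_sections j t₀ ht₀
    filter_upwards [h2] with t h3
    rw [h3.1]
    exact h3.2.ncard_image
  have hpc : IsPreconnected (S.B j)ᶜ :=
    ((S.B_countable j).isPathConnected_compl_of_one_lt_rank (by
      rw [Complex.rank_real_complex]
      exact Cardinal.one_lt_two)).isConnected.isPreconnected
  have : PreconnectedSpace ((S.B j)ᶜ : Set ℂ) := Subtype.preconnectedSpace hpc
  have hlc : IsLocallyConstant (fun t : ((S.B j)ᶜ : Set ℂ) => (S.fibre j t.1).ncard) := by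
    rw [IsLocallyConstant.iff_eventually_eq]
    intro t₀
    exact (continuous_subtype_val.tendsto t₀).eventually (hloc t₀.1 t₀.2)
  -- a point with a regular value
  obtain ⟨x₀⟩ : Nonempty X := inferInstance
  have := S.neBot x₀
  obtain ⟨x, hx⟩ := (Two_finite_compl _ (S.B_preimage_finite j) x₀).exists
  have hxB : S.f j x ∉ S.B j := hx
  refine ⟨(S.fibre j (S.f j x)).ncard, ?_, fun t ht => ?_⟩
  · exact (Set.ncard_pos (S.fibre_finite j _)).2 ⟨x, S.Two_mem_fibre j x⟩
  · exact hlc.apply_eq_of_preconnectedSpace ⟨t, ht⟩ ⟨S.f j x, hxB⟩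

theorem sum_deg_le (h : S.DegLe) (d : Fin 6 → ℕ)
    (hd : ∀ j, ∀ t ∉ S.B j, (S.fibre j t).ncard = d j) : ∑ j, d j ≤ 12 := by
  classical
  set s : Finset X := Finset.univ.biUnion fun j => (S.fibre_finite j 0).toFinset with hs
  have hone : ∀ j, (d j : ℕ∞) ≤ ∑ x ∈ s, Set.indicator (S.fibre j 0) (S.mult j) x := by
    intro j
    have h1 : ∀ᶠ t in 𝓝[≠] (0 : ℂ), ((S.fibre j t).ncard : ℕ∞) ≤
        ∑ x ∈ (S.fibre_finite j 0).toFinset, S.mult j x :=
      (S.ncard_le_mult j 0).filter_mono nhdsWithin_le_nhds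
    obtain ⟨t, h2, h3⟩ := (h1.and (S.B_discrete j 0)).exists
    rw [hd j t h3] at h2
    refine h2.trans ?_
    have h4 : ∑ x ∈ (S.fibre_finite j 0).toFinset, S.mult j x
        = ∑ x ∈ (S.fibre_finite j 0).toFinset, Set.indicator (S.fibre j 0) (S.mult j) x := by
      refine Finset.sum_congr rfl fun x hx => ?_
      rw [Set.indicator_of_mem ((S.fibre_finite j 0).mem_toFinset.1 hx)]
    rw [h4]
    refine Finset.sum_le_sum_of_subset ?_
    intro x hx
    exact Finset.mem_biUnion.2 ⟨j, Finset.mem_univ j, hx⟩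
  have h2 : ((∑ j, d j : ℕ) : ℕ∞) ≤ 12 := by
    rw [Nat.cast_sum]
    calc ∑ j, (d j : ℕ∞) ≤ ∑ j, ∑ x ∈ s, Set.indicator (S.fibre j 0) (S.mult j) x :=
          Finset.sum_le_sum fun j _ => hone j
      _ = ∑ x ∈ s, ∑ j, Set.indicator (S.fibre j 0) (S.mult j) x := Finset.sum_comm
      _ ≤ 12 := h s
  exact_mod_cast h2

omit [CompactSpace X] [T2Space X] in
/-- the quotient of two forms times the lift tends to `0` at every point -/
theorem quot_growth (c : Fin 6 → ℂ) (j : Fin 6) (x : X) :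
    Tendsto (fun y => (S.w x j (S.φ x y) - S.w x j (S.φ x x)) * (S.E c y / S.e j y))
      (𝓝[≠] x) (𝓝 0) := by
  have h1 : Tendsto (fun y => (S.w x j (S.φ x y) - S.w x j (S.φ x x))
      / deriv (S.w x j) (S.φ x y)) (𝓝[≠] x) (𝓝 0) :=
    (quot_deriv_tendsto (S.w x j) (S.φ x x) (S.analytic x j) (S.mult_ne_top j x)).comp
      (S.tendsto_chart x)
  have h2 : Tendsto (fun y => deriv (fun z => ∑ i, c i * S.w x i z) (S.φ x y)) (𝓝[≠] x)
      (𝓝 (deriv (fun z => ∑ i, c i * S.w x i z) (S.φ x x))) := by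
    have h3 : ContinuousAt (deriv (fun z => ∑ i, c i * S.w x i z)) (S.φ x x) :=
      (S.Loc_analytic_sum c x).deriv.continuousAt
    exact h3.tendsto.comp ((S.tendsto_chart_nhds x).mono_left nhdsWithin_le_nhds)
  have h3 := h1.mul h2
  rw [zero_mul] at h3
  refine h3.congr' ?_
  filter_upwards [(S.E_local c x).filter_mono nhdsWithin_le_nhds] with y hy
  obtain ⟨κ, hκ, h4, h5⟩ := hy
  rw [h4 j, h5, mul_div_mul_left _ _ hκ]
  ring

/-- the trace of a quotient of forms is constant -/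
theorem trace_const (j : Fin 6) (c : Fin 6 → ℂ) :
    ∃ C, ∀ t ∉ S.B j, S.Tr j (fun y => S.E c y / S.e j y) t = C := by
  obtain ⟨d, _, hd⟩ := S.exists_deg j
  refine liouville L (S.Tr j (fun y => S.E c y / S.e j y)) (S.B j) (S.B_discrete j)
    (fun z l hl => S.Tr_per j _ z l hl) ?_ ?_
  · intro z hz
    refine (S.Tr_hol j _ z hz fun x hx => ?_).differentiableAt
    exact S.hol_quot c j x fun h0 => hz ⟨x, hx, h0⟩
  · intro z _
    have h1 := S.Tr_growth j (fun y => S.E c y / S.e j y) z 1 d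
      ((S.B_discrete j z).mono fun t ht => (hd t ht).le) (fun x _ => by
        simp only [pow_one]
        exact S.quot_growth c j x)
    simpa only [pow_one] using h1

/-- a relation between `E c` and `e j` that holds off a finite set is trivial -/
lemma Two_no_relation (j i : Fin 6) (hij : i ≠ j) (C : ℂ) (A : Set X) (hA : A.Finite)
    (h : ∀ x, x ∉ A → S.e i x = C * S.e j x) : False := by
  set c : Fin 6 → ℂ := Pi.single i 1 - C • Pi.single j 1 with hc
  have hc0 : c ≠ 0 := by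
    intro h0
    have h1 := congrFun h0 i
    rw [hc] at h1
    simp [hij] at h1
  have hE : ∀ x, S.E c x = S.e i x - C * S.e j x := by
    intro x
    rw [← S.E_single i x, ← S.E_single j x]
    unfold E
    rw [Finset.mul_sum, ← Finset.sum_sub_distrib]
    refine Finset.sum_congr rfl fun k _ => ?_
    rw [hc]
    simp only [Pi.sub_apply, Pi.smul_apply, smul_eq_mul]
    ring
  obtain ⟨x₀⟩ : Nonempty X := inferInstance
  have := S.neBot x₀
  obtain ⟨y, hy1, hy2⟩ := ((S.E_ne_zero c hc0 x₀).and (Two_finite_compl A hA x₀)).exists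
  apply hy1
  rw [hE, h y hy2, sub_self]

theorem two_le (j : Fin 6) (d : ℕ) (hd : ∀ t ∉ S.B j, (S.fibre j t).ncard = d) : 2 ≤ d := by
  obtain ⟨d', hd'0, hd'⟩ := S.exists_deg j
  obtain ⟨t₁, ht₁⟩ := Two_exists_compl (S.B j) (S.B_countable j)
  have hdd : d = d' := by rw [← hd t₁ ht₁, hd' t₁ ht₁]
  by_contra hlt
  have hd1 : d = 1 := by omega
  obtain ⟨i, hij⟩ : ∃ i : Fin 6, i ≠ j := exists_ne j
  obtain ⟨C, hC⟩ := S.trace_const j (Pi.single i 1)
  refine S.Two_no_relation j i hij C {x | S.f j x ∈ S.B j} (S.B_preimage_finite j)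
    fun x hx => ?_
  have hxB : S.f j x ∉ S.B j := hx
  have hmem := S.Two_mem_fibre j x
  have h1 : S.fibre j (S.f j x) = {x} := by
    have h2 := hd _ hxB
    rw [hd1, Set.ncard_eq_one] at h2
    obtain ⟨a, ha⟩ := h2
    rw [ha] at hmem
    rw [ha, Set.mem_singleton_iff.1 hmem]
  have he : S.e j x ≠ 0 := fun h0 => hxB ⟨x, hmem, h0⟩
  have h2 := hC _ hxB
  unfold Tr at h2
  rw [h1, finsum_mem_singleton, S.E_single, div_eq_iff he] at h2
  exact h2

theorem deg_two (h : S.DegLe) (j : Fin 6) : ∀ t ∉ S.B j, (S.fibre j t).ncard = 2 := by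
  choose d hd0 hd using S.exists_deg
  have h1 := S.sum_deg_le h d hd
  have h2 : ∀ i, 2 ≤ d i := fun i => S.two_le i (d i) (hd i)
  have h3 : ∀ i, d i = 2 + (d i - 2) := fun i => by
    have := h2 i
    omega
  have h4 : ∑ i, d i = 12 + ∑ i, (d i - 2) := by
    calc ∑ i, d i = ∑ i : Fin 6, (2 + (d i - 2)) := Finset.sum_congr rfl fun i _ => h3 i
      _ = _ := by
        rw [Finset.sum_add_distrib]
        simp
  have h5 : ∑ i, (d i - 2) = 0 := by omega
  have h6 : d j - 2 = 0 := Finset.sum_eq_zero_iff.1 h5 j (Finset.mem_univ j)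
  have h7 : d j = 2 := by
    have := h2 j
    omega
  intro t ht
  rw [hd j t ht, h7]

end Sys

end Pool.Agent.H36.NJ
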